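import Mathlib

/-!
# Bracket powers and intersections of powers: the abstract lemma

`Fr p e I` is the ideal generated by the `p ^ e`-th powers of the elements of `I`.  The main result
`mem_of_mem` says that an element of `⋂ I_z ^ ν_z` lying in `M^[q]^s * M^n`, with `n ≥ q + C`, lies in
`M^[q]^s * ⋂ I_z ^ ν_z`.
-/

set_option autoImplicit false

namespace Pool.Agent.Helper77.SP1

section frob

variable {R : Type*} [CommRing R] (p : ℕ) [Fact p.Prime] [CharP R p] (e : ℕ)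

/-- the ideal generated by the `p ^ e`-th powers -/
noncomputable def Fr (I : Ideal R) : Ideal R := I.map (iterateFrobenius R p e)

lemma pow_mem_Fr {I : Ideal R} {x : R} (hx : x ∈ I) : x ^ p ^ e ∈ Fr p e I := by
  have h := Ideal.mem_map_of_mem (iterateFrobenius R p e) hx
  rwa [iterateFrobenius_def] at h

lemma Fr_mono {I J : Ideal R} (h : I ≤ J) : Fr p e I ≤ Fr p e J := Ideal.map_mono h

lemma Fr_le_pow (I : Ideal R) : Fr p e I ≤ I ^ p ^ e := by
  unfold Fr
  rw [Ideal.map_le_iff_le_comap]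
  intro x hx
  rw [Ideal.mem_comap, iterateFrobenius_def]
  exact Ideal.pow_mem_pow hx _

lemma Fr_sup (I J : Ideal R) : Fr p e (I ⊔ J) = Fr p e I ⊔ Fr p e J := Ideal.map_sup _ I J

lemma Fr_span (S : Set R) : Fr p e (Ideal.span S) = Ideal.span ((fun x => x ^ p ^ e) '' S) := by
  unfold Fr
  rw [Ideal.map_span]
  congr 1

lemma Fr_span_singleton (x : R) : Fr p e (Ideal.span {x}) = Ideal.span {x ^ p ^ e} := by
  rw [Fr_span, Set.image_singleton]

end frob

section abs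

variable {R : Type*} [CommRing R] {ι : Type*} [Fintype ι] [DecidableEq ι]

/-- the intersection of the powers over the other indices -/
def Oth (I : ι → Ideal R) (ν : ι → ℕ) (z : ι) : Ideal R := ⨅ z' ∈ Finset.univ.erase z, I z' ^ ν z'

omit [Fintype ι] in
lemma mem_Oth [Fintype ι] {I : ι → Ideal R} {ν : ι → ℕ} {z : ι} {x : R} :
    x ∈ Oth I ν z ↔ ∀ z', z' ≠ z → x ∈ I z' ^ ν z' := by
  unfold Oth
  simp only [Submodule.mem_iInf, Finset.mem_erase, Finset.mem_univ, and_true]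

/-- separating elements -/
lemma exists_sep (I : ι → Ideal R) (l : ι → R) (lam : ι → ι → R)
    (h1 : ∀ z z', z' ≠ z → lam z z' ∈ I z') (h2 : ∀ z z', z' ≠ z → l z - lam z z' ∈ I z)
    (ν : ι → ℕ) (z : ι) : ∃ E ∈ Oth I ν z, E - l z ^ (∑ z' ∈ Finset.univ.erase z, ν z * ν z') ∈ I z ^ ν z := by
  refine ⟨∏ z' ∈ Finset.univ.erase z, (l z ^ ν z - (l z - lam z z') ^ ν z) ^ ν z', ?_, ?_⟩
  · rw [mem_Oth]
    intro z' hz'
    rw [← Finset.mul_prod_erase _ _ (Finset.mem_erase.2 ⟨hz', Finset.mem_univ z'⟩)]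
    apply Ideal.mul_mem_right
    apply Ideal.pow_mem_pow
    have h3 : l z - (l z - lam z z') ∣ l z ^ ν z - (l z - lam z z') ^ ν z := sub_dvd_pow_sub_pow _ _ _
    rw [sub_sub_cancel] at h3
    exact Ideal.mem_of_dvd _ h3 (h1 z z' hz')
  · rw [← Ideal.Quotient.eq, map_prod, map_pow, ← Finset.prod_pow_eq_pow_sum]
    apply Finset.prod_congr rfl
    intro z' hz'
    have hz'' := Finset.ne_of_mem_erase hz'
    have h3 : Ideal.Quotient.mk (I z ^ ν z) ((l z - lam z z') ^ ν z) = 0 :=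
      Ideal.Quotient.eq_zero_iff_mem.2 (Ideal.pow_mem_pow (h2 z z' hz'') _)
    rw [map_pow, map_sub, h3, sub_zero, map_pow, ← pow_mul]

/-- interpolation with a common factor `l z ^ q` -/
lemma exists_interp (I : ι → Ideal R) (M : Ideal R) (l : ι → R)
    (hM : ∀ z, M ≤ Ideal.span {l z} ⊔ I z) (lam : ι → ι → R)
    (h1 : ∀ z z', z' ≠ z → lam z z' ∈ I z') (h2 : ∀ z z', z' ≠ z → l z - lam z z' ∈ I z)
    (ν : ι → ℕ) : ∃ C : ℕ, ∀ q n : ℕ, q + C ≤ n → ∀ f ∈ M ^ n, ∃ g : ι → R,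
      (∀ z, g z ∈ Oth I ν z) ∧ f - ∑ z, l z ^ q * g z ∈ ⨅ z, I z ^ ν z := by
  choose E hE1 hE2 using exists_sep I l lam h1 h2 ν
  set D : ι → ℕ := fun z => ∑ z' ∈ Finset.univ.erase z, ν z * ν z' with hD
  refine ⟨∑ z, (D z + ν z), fun q n hn f hf => ?_⟩
  have key : ∀ z, ∃ g : R, f - l z ^ q * (E z * g) ∈ I z ^ ν z := by
    intro z
    have hz : D z + ν z ≤ ∑ z, (D z + ν z) :=
      Finset.single_le_sum (f := fun z => D z + ν z) (fun _ _ => Nat.zero_le _) (Finset.mem_univ z)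
    have h3 : f ∈ Ideal.span {l z} ^ (q + D z) ⊔ I z ^ ν z := by
      apply Ideal.sup_pow_add_le_pow_sup_pow
      exact Ideal.pow_right_mono (hM z) _ (Ideal.pow_le_pow_right (by omega) hf)
    rw [Ideal.span_singleton_pow, Submodule.mem_sup] at h3
    obtain ⟨a, ha, u, hu, hau⟩ := h3
    obtain ⟨g, rfl⟩ := Ideal.mem_span_singleton.1 ha
    refine ⟨g, ?_⟩
    have h4 : f - l z ^ q * (E z * g) = u - l z ^ q * g * (E z - l z ^ D z) := by
      rw [← hau, pow_add]; ring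
    rw [h4]
    exact Ideal.sub_mem _ hu (Ideal.mul_mem_left _ _ (hE2 z))
  choose g hg using key
  refine ⟨fun z => E z * g z, fun z => Ideal.mul_mem_right _ _ (hE1 z), ?_⟩
  rw [Submodule.mem_iInf]
  intro z
  rw [← Finset.add_sum_erase _ _ (Finset.mem_univ z), ← sub_sub]
  apply Ideal.sub_mem _ (hg z)
  apply Ideal.sum_mem
  intro z' hz'
  apply Ideal.mul_mem_left
  apply Ideal.mul_mem_right
  exact mem_Oth.1 (hE1 z') z (Finset.ne_of_mem_erase hz').symm

omit [Fintype ι] [DecidableEq ι] in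
lemma pow_le_sup {N J : Ideal R} {a : R} (ha : a ∈ N) (hN : N ≤ Ideal.span {a} ⊔ J) (s : ℕ) :
    N ^ (s + 1) ≤ Ideal.span {a ^ (s + 1)} ⊔ J * N ^ s := by
  induction s with
  | zero => simpa using hN
  | succ s ih =>
    have haN : Ideal.span {a} ≤ N := (Ideal.span_singleton_le_iff_mem _).2 ha
    calc N ^ (s + 1 + 1) = N * N ^ (s + 1) := by rw [pow_succ N (s + 1), mul_comm]
      _ ≤ (Ideal.span {a} ⊔ J) * N ^ (s + 1) := Ideal.mul_mono_left hN
      _ = Ideal.span {a} * N ^ (s + 1) ⊔ J * N ^ (s + 1) := Ideal.sup_mul _ _ _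
      _ ≤ Ideal.span {a} * (Ideal.span {a ^ (s + 1)} ⊔ J * N ^ s) ⊔ J * N ^ (s + 1) :=
          sup_le_sup_right (Ideal.mul_mono_right ih) _
      _ = (Ideal.span {a ^ (s + 1 + 1)} ⊔ J * (Ideal.span {a} * N ^ s)) ⊔ J * N ^ (s + 1) := by
          rw [Ideal.mul_sup, Ideal.span_singleton_mul_span_singleton, ← pow_succ', mul_left_comm]
      _ ≤ (Ideal.span {a ^ (s + 1 + 1)} ⊔ J * N ^ (s + 1)) ⊔ J * N ^ (s + 1) := by
          apply sup_le_sup_right
          apply sup_le_sup_left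
          apply Ideal.mul_mono_right
          rw [pow_succ']
          exact Ideal.mul_mono_left haN
      _ = Ideal.span {a ^ (s + 1 + 1)} ⊔ J * N ^ (s + 1) := by rw [sup_assoc, sup_idem]

/-- **the abstract lemma** -/
theorem mem_of_mem (p : ℕ) [Fact p.Prime] [CharP R p] (I : ι → Ideal R) (M : Ideal R) (l : ι → R)
    (hl : ∀ z, l z ∈ M) (hM : ∀ z, M ≤ Ideal.span {l z} ⊔ I z) (lam : ι → ι → R)
    (h1 : ∀ z z', z' ≠ z → lam z z' ∈ I z') (h2 : ∀ z z', z' ≠ z → l z - lam z z' ∈ I z)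
    (hreg : ∀ z k y, l z * y ∈ I z ^ k → y ∈ I z ^ k) (ν : ι → ℕ) :
    ∃ C : ℕ, ∀ e : ℕ, (∀ z, ν z ≤ p ^ e) → ∀ n, p ^ e + C ≤ n → ∀ s : ℕ, ∀ w : R,
      w ∈ ⨅ z, I z ^ ν z → w ∈ Fr p e M ^ s * M ^ n → w ∈ Fr p e M ^ s * ⨅ z, I z ^ ν z := by
  obtain ⟨C, hC⟩ := exists_interp I M l hM lam h1 h2 ν
  refine ⟨C, fun e he n hn s w hw hw' => ?_⟩
  set q := p ^ e with hq
  set N := Fr p e M with hN
  set A := ⨅ z, I z ^ ν z with hA
  -- decomposition
  have hdec : ∃ w0 ∈ N ^ s * A, ∃ y : ι → R, (∀ z, y z ∈ N ^ s * Oth I ν z) ∧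
      w = w0 + ∑ z, l z ^ q * y z := by
    refine Submodule.mul_induction_on hw' (fun a ha b hb => ?_) (fun x y hx hy => ?_)
    · obtain ⟨g, hg1, hg2⟩ := hC q n hn b hb
      refine ⟨a * (b - ∑ z, l z ^ q * g z), Ideal.mul_mem_mul ha hg2, fun z => a * g z,
        fun z => Ideal.mul_mem_mul ha (hg1 z), ?_⟩
      rw [mul_sub, Finset.mul_sum]
      have h3 : ∑ z, a * (l z ^ q * g z) = ∑ z, l z ^ q * (a * g z) :=
        Finset.sum_congr rfl fun z _ => by ring
      rw [h3, sub_add_cancel]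
    · obtain ⟨x0, hx0, u, hu, rfl⟩ := hx
      obtain ⟨y0, hy0, v, hv, rfl⟩ := hy
      refine ⟨x0 + y0, Ideal.add_mem _ hx0 hy0, fun z => u z + v z,
        fun z => Ideal.add_mem _ (hu z) (hv z), ?_⟩
      have h3 : ∑ z, l z ^ q * (u z + v z) = ∑ z, l z ^ q * u z + ∑ z, l z ^ q * v z := by
        rw [← Finset.sum_add_distrib]
        exact Finset.sum_congr rfl fun z _ => by ring
      rw [h3]; ring
  obtain ⟨w0, hw0, y, hy, hwy⟩ := hdec
  have hreg' : ∀ z (k j : ℕ) (x : R), l z ^ j * x ∈ I z ^ k → x ∈ I z ^ k := by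
    intro z k j
    induction j with
    | zero => intro x hx; simpa using hx
    | succ j ih =>
      intro x hx
      apply ih
      apply hreg z k
      rwa [← mul_assoc, ← pow_succ']
  have hAz : ∀ x ∈ A, ∀ z, x ∈ I z ^ ν z := fun x hx z => (Submodule.mem_iInf _).1 hx z
  have hNA : ∀ (k : ℕ) (x : R), x ∈ N ^ k * A → x ∈ A := fun k x hx =>
    (Ideal.mul_le_right : N ^ k * A ≤ A) hx
  have hNO : ∀ z x, x ∈ N ^ s * Oth I ν z → x ∈ Oth I ν z := fun z x hx =>
    (Ideal.mul_le_right : N ^ s * Oth I ν z ≤ Oth I ν z) hx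
  -- each `y z` lies in `I z ^ ν z`
  have hyI : ∀ z, y z ∈ I z ^ ν z := by
    intro z
    apply hreg' z _ q
    have h3 : l z ^ q * y z = w - w0 - ∑ z' ∈ Finset.univ.erase z, l z' ^ q * y z' := by
      rw [hwy, ← Finset.add_sum_erase _ _ (Finset.mem_univ z)]; ring
    rw [h3]
    apply Ideal.sub_mem
    · exact Ideal.sub_mem _ (hAz _ hw z) (hAz _ (hNA s _ hw0) z)
    · apply Ideal.sum_mem
      intro z' hz'
      apply Ideal.mul_mem_left
      exact mem_Oth.1 (hNO z' _ (hy z')) z (Finset.ne_of_mem_erase hz').symm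
  clear hNO
  have hfin : ∀ z, l z ^ q * y z ∈ N ^ s * A := by
    intro z
    have hlN : l z ^ q ∈ N := pow_mem_Fr p e (hl z)
    have hA' : ∀ x, x ∈ Oth I ν z → x ∈ I z ^ ν z → x ∈ A := by
      intro x hx hx'
      rw [hA, Submodule.mem_iInf]
      intro z'
      by_cases hz' : z' = z
      · rw [hz']; exact hx'
      · exact mem_Oth.1 hx z' hz'
    cases s with
    | zero =>
      have h3 := hy z
      rw [pow_zero, Ideal.one_eq_top, Ideal.top_mul] at h3 ⊢
      exact Ideal.mul_mem_left _ _ (hA' _ h3 (hyI z))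
    | succ s =>
      have h3 : N ≤ Ideal.span {l z ^ q} ⊔ Fr p e (I z) := by
        have := Fr_mono p e (hM z)
        rwa [Fr_sup, Fr_span_singleton] at this
      have h4 := pow_le_sup hlN h3 s
      have h5 : Fr p e (I z) * Oth I ν z ≤ A := by
        refine (Ideal.mul_mono_left ((Fr_le_pow p e (I z)).trans
          (Ideal.pow_le_pow_right (he z)))).trans ?_
        intro x hx
        exact hA' x ((Ideal.mul_le_right : I z ^ ν z * Oth I ν z ≤ Oth I ν z) hx)
          ((Ideal.mul_le_left : I z ^ ν z * Oth I ν z ≤ I z ^ ν z) hx)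
      have h6 : y z ∈ Ideal.span {(l z ^ q) ^ (s + 1)} * Oth I ν z ⊔ N ^ s * A := by
        have h7 : N ^ (s + 1) * Oth I ν z ≤
            Ideal.span {(l z ^ q) ^ (s + 1)} * Oth I ν z ⊔ N ^ s * A := by
          refine (Ideal.mul_mono_left h4).trans ?_
          rw [Ideal.sup_mul]
          apply sup_le_sup_left
          rw [mul_comm (Fr p e (I z)) (N ^ s), mul_assoc]
          exact Ideal.mul_mono_right h5
        exact h7 (hy z)
      rw [Submodule.mem_sup] at h6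
      obtain ⟨a, ha, y', hy', hay⟩ := h6
      rw [Ideal.mem_span_singleton_mul] at ha
      obtain ⟨b, hb, rfl⟩ := ha
      have hbI : b ∈ I z ^ ν z := by
        have h7 : (l z ^ q) ^ (s + 1) * b ∈ I z ^ ν z := by
          have h8 : (l z ^ q) ^ (s + 1) * b = y z - y' := by rw [← hay]; ring
          rw [h8]
          exact Ideal.sub_mem _ (hyI z) (hAz _ (hNA s _ hy') z)
        rw [← pow_mul] at h7
        exact hreg' z _ _ _ h7
      have hbA := hA' b hb hbI
      rw [← hay, mul_add]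
      apply Ideal.add_mem
      · rw [← mul_assoc]
        apply Ideal.mul_mem_mul _ hbA
        apply Ideal.mul_mem_left
        exact Ideal.pow_mem_pow hlN _
      · rw [pow_succ', mul_assoc]
        exact Ideal.mul_mem_mul hlN hy'
  rw [hwy]
  exact Ideal.add_mem _ hw0 (Ideal.sum_mem _ fun z _ => hfin z)

end abs

end Pool.Agent.Helper77.SP1
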