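import Mathlib
import Pool.Agent.Helper50.N2.Interp
import Pool.Agent.Helper50.N2.Char0
import Pool.Agent.Helper50.Dem.Bridge
import Pool.Agent.Helper77.SP1.Abs

/-!
# Intersections of powers of point ideals, and the trace
-/

set_option autoImplicit false

open MvPolynomial

namespace Pool.Agent.Helper77.SP1

open Pool.Agent.Helper50.Dem Pool.Agent.Helper50.N2

section ideals

variable {K : Type*} [Field K] {N : ℕ} {ι : Type*}

lemma HI_pt (P : Fin (N + 1) → K) : HI (ptIdeal P) := by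
  apply HI_span
  rintro _ ⟨⟨i, j⟩, rfl⟩
  exact ⟨1, (isHomogeneous_C_mul_X _ _).sub (isHomogeneous_C_mul_X _ _)⟩

/-- the ideal `⋂ I(P_z)^{ν z}` -/
noncomputable def AA (P : ι → Fin (N + 1) → K) (ν : ι → ℕ) : Ideal (MvPolynomial (Fin (N + 1)) K) :=
  ⨅ z, ptIdeal (P z) ^ ν z

lemma mem_AA {P : ι → Fin (N + 1) → K} {ν : ι → ℕ} {f : MvPolynomial (Fin (N + 1)) K} :
    f ∈ AA P ν ↔ ∀ z, f ∈ ptIdeal (P z) ^ ν z := by
  unfold AA
  rw [Submodule.mem_iInf]

lemma HI_AA (P : ι → Fin (N + 1) → K) (ν : ι → ℕ) : HI (AA P ν) := by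
  intro u hu n
  rw [mem_AA] at *
  exact fun z => (HI_pt (P z)).pow (ν z) u (hu z) n

lemma form_mem_AA {P : ι → Fin (N + 1) → K} (hP : ∀ z, P z ≠ 0) {ν : ι → ℕ}
    {f : MvPolynomial (Fin (N + 1)) K} {d : ℕ} (hf : f.IsHomogeneous d) :
    f ∈ AA P ν ↔ ∀ z, f ∈ Vi (P z) (ν z) := by
  rw [mem_AA]
  exact ⟨fun h z => ptIdeal_pow_le _ _ (h z), fun h z => mem_ptIdeal_pow (hP z) hf (h z)⟩

lemma AA_eq_JJ {P : ι → Fin (N + 1) → K} (hP : ∀ z, P z ≠ 0) (ν : ι → ℕ) : AA P ν = JJ P ν := by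
  apply le_antisymm
  · rw [(HI_AA P ν).eq_span, Ideal.span_le]
    rintro u ⟨⟨n, hn⟩, hu⟩
    exact mem_JJ_of_form hn ((form_mem_AA hP hn).1 hu)
  · rw [JJ, Ideal.span_le]
    rintro u ⟨⟨n, hn⟩, hu⟩
    exact (form_mem_AA hP hn).2 hu

lemma vars_le (P : Fin (N + 1) → K) (i₀ : Fin (N + 1)) (h0 : P i₀ ≠ 0) :
    idealOfVars (Fin (N + 1)) K ≤ Ideal.span {X i₀} ⊔ ptIdeal P := by
  unfold idealOfVars
  rw [Ideal.span_le]
  rintro _ ⟨i, rfl⟩
  have h1 : (X i : MvPolynomial (Fin (N + 1)) K) = C (P i / P i₀) * X i₀ + lin P i₀ i := by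
    unfold lin; ring
  rw [SetLike.mem_coe, h1]
  exact Ideal.add_mem _ (Ideal.mem_sup_left (Ideal.mul_mem_left _ _ (Ideal.mem_span_singleton_self _)))
    (Ideal.mem_sup_right (lin_mem_ptIdeal P i₀ h0 i))

lemma lin_form_mem {P : Fin (N + 1) → K} (hP : P ≠ 0) {f : MvPolynomial (Fin (N + 1)) K}
    {d : ℕ} (hf : f.IsHomogeneous d) (h : eval P f = 0) : f ∈ ptIdeal P := by
  have h1 : f ∈ Vi P 1 := by
    rw [mem_Vi]
    intro u hu
    have hu0 : u = 0 := by
      rw [← Finsupp.degree_eq_zero_iff]; omega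
    rw [hu0]
    have h2 : coeff 0 (tr P f) = eval P f := by
      have h3 : (constantCoeff : MvPolynomial (Fin (N + 1)) K →+* K).comp
          (tr P : MvPolynomial (Fin (N + 1)) K →ₐ[K] MvPolynomial (Fin (N + 1)) K).toRingHom
          = eval P := by
        apply MvPolynomial.ringHom_ext
        · intro r; simp
        · intro i; simp
      exact congrArg (fun φ => φ f) h3
    rw [h2, h]
  have h2 := mem_ptIdeal_pow hP hf h1
  rwa [pow_one] at h2

lemma reg_pt {P : Fin (N + 1) → K} (i₀ : Fin (N + 1)) (h0 : P i₀ ≠ 0) (k : ℕ)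
    (y : MvPolynomial (Fin (N + 1)) K) (h : X i₀ * y ∈ ptIdeal P ^ k) : y ∈ ptIdeal P ^ k := by
  have hP : P ≠ 0 := fun h1 => h0 (by rw [h1]; rfl)
  rw [← sum_homogeneousComponent y]
  apply Ideal.sum_mem
  intro n _
  have h1 := (HI_pt P).pow k _ h (n + 1)
  rw [mul_comm, hc_mul_form (isHomogeneous_X _ _)] at h1
  refine mem_ptIdeal_pow hP (homogeneousComponent_isHomogeneous n y) ?_
  have h2 := ptIdeal_pow_le P k h1
  refine Vi_pow_mul_cancel (t := 1) (k := 0) (g := X i₀) (Vi_zero _) ?_ ?_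
  · intro h3
    have h4 := mem_Vi.1 h3 0 (by simp)
    rw [tr_X, coeff_add, coeff_zero_X, coeff_zero_C, zero_add] at h4
    exact h0 h4
  · rw [pow_one, mul_zero, zero_add, mul_comm]; exact h2

/-- **the lemma for point ideals** -/
theorem AA_lemma [Fintype ι] {P : ι → Fin (N + 1) → K} (hP : ∀ z, P z ≠ 0)
    (hne : ∀ z z', z ≠ z' → ∀ c : K, P z' ≠ c • P z) (p : ℕ) [Fact p.Prime] [CharP K p]
    (ν : ι → ℕ) : ∃ C : ℕ, ∀ e : ℕ, (∀ z, ν z ≤ p ^ e) → ∀ n, p ^ e + C ≤ n → ∀ s : ℕ, ∀ w,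
      w ∈ AA P ν → w ∈ Fr p e (idealOfVars (Fin (N + 1)) K) ^ s * idealOfVars (Fin (N + 1)) K ^ n →
      w ∈ Fr p e (idealOfVars (Fin (N + 1)) K) ^ s * AA P ν := by
  classical
  have h0 : ∀ z, ∃ i, P z i ≠ 0 := by
    intro z
    by_contra h
    push Not at h
    exact hP z (funext h)
  choose i0 hi0 using h0
  have hs : ∀ z z', ∃ lam : MvPolynomial (Fin (N + 1)) K,
      z' ≠ z → lam ∈ ptIdeal (P z') ∧ X (i0 z) - lam ∈ ptIdeal (P z) := by
    intro z z'
    by_cases hz : z' = z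
    · exact ⟨0, fun h => absurd hz h⟩
    · obtain ⟨s, hs⟩ := exists_separate (hi0 z') (fun c => hne z' z hz c)
      refine ⟨C (P z (i0 z) / eval (P z) (lin (P z') (i0 z') s)) * lin (P z') (i0 z') s, fun _ =>
        ⟨Ideal.mul_mem_left _ _ (lin_mem_ptIdeal _ _ (hi0 z') s), ?_⟩⟩
      apply lin_form_mem (hP z) (d := 1)
      · apply IsHomogeneous.sub (isHomogeneous_X _ _)
        have h1 : (lin (P z') (i0 z') s).IsHomogeneous 1 :=
          (isHomogeneous_X _ _).sub (isHomogeneous_C_mul_X _ _)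
        have h2 := (isHomogeneous_C (Fin (N + 1))
          (P z (i0 z) / eval (P z) (lin (P z') (i0 z') s))).mul h1
        rwa [zero_add] at h2
      · rw [map_sub, map_mul, eval_X, eval_C, div_mul_cancel₀ _ hs, sub_self]
  choose lam hlam using hs
  exact mem_of_mem p (fun z => ptIdeal (P z)) (idealOfVars (Fin (N + 1)) K) (fun z => X (i0 z))
    (fun z => Ideal.subset_span ⟨i0 z, rfl⟩) (fun z => vars_le (P z) (i0 z) (hi0 z)) lam
    (fun z z' h => (hlam z z' h).1) (fun z z' h => (hlam z z' h).2)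
    (fun z k y h => reg_pt (i0 z) (hi0 z) k y h) ν

end ideals

section trace

variable {K : Type*} [Field K] [IsAlgClosed K] (p : ℕ) [Fact p.Prime] [CharP K p] (e : ℕ)

/-- the root of a component of a form is a form -/
lemma rt_form {σ : Type} {a : σ →₀ ℕ} {f : MvPolynomial σ K} {d : ℕ} (hf : f.IsHomogeneous d) :
    rt p e a f = 0 ∨ ∃ n, p ^ e * n + a.degree = d ∧ (rt p e a f).IsHomogeneous n := by
  by_cases h : rt p e a f = 0
  · exact Or.inl h
  · right
    obtain ⟨c, hc⟩ := ne_zero_iff.1 h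
    have h1 : coeff (p ^ e • c + a) f ≠ 0 := by
      rw [← rt_spec]
      exact pow_ne_zero _ hc
    have h2 : (p ^ e • c + a).degree = d := by
      by_contra h3
      exact h1 (hf.coeff_eq_zero h3)
    rw [map_add, degree_smul'] at h2
    exact ⟨c.degree, h2, rt_isHomogeneous p e hf h2⟩

/-- the trace maps `AA P ν` into `AA P μ` after multiplication by a power of a form -/
lemma rt_mem_AA {N : ℕ} {ι : Type*} {P : ι → Fin (N + 1) → K} (hP : ∀ z, P z ≠ 0) {a : Fin (N + 1) →₀ ℕ}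
    (ha : ∀ i, a i < p ^ e) {F : MvPolynomial (Fin (N + 1)) K} {d k : ℕ} (hF : F.IsHomogeneous d)
    {α ν μ : ι → ℕ} (hFV : ∀ z, F ∈ Vi (P z) (α z))
    (hnum : ∀ z, ∀ j < μ z, p ^ e * j + N * (p ^ e - 1) < k * α z + ν z)
    {w : MvPolynomial (Fin (N + 1)) K} (hw : w ∈ AA P ν) : rt p e a (F ^ k * w) ∈ AA P μ := by
  classical
  rw [← sum_homogeneousComponent w, Finset.mul_sum, rt_sum]
  apply Ideal.sum_mem
  intro n _
  have hn := HI_AA P ν w hw n
  have hwn := homogeneousComponent_isHomogeneous n w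
  have hform : (F ^ k * homogeneousComponent n w).IsHomogeneous (d * k + n) := (hF.pow k).mul hwn
  rcases rt_form p e hform (a := a) with h | ⟨m, _, hm⟩
  · rw [h]; exact Ideal.zero_mem _
  · rw [form_mem_AA hP hm]
    intro z
    apply rt_mem_Vi p e (hP z) ha hform (k := k * α z + ν z)
    · exact Vi_mul (Vi_pow (hFV z) k) ((form_mem_AA hP hwn).1 hn z)
    · intro j hj
      rw [Fintype.card_fin, Nat.add_sub_cancel]
      exact hnum z j hj

/-- the trace of elements of `Fr I * A` -/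
lemma rt_mem_mul {σ : Type} {a : σ →₀ ℕ} (ha : ∀ i, a i < p ^ e) (G : MvPolynomial σ K)
    {I A B : Ideal (MvPolynomial σ K)} (hAB : ∀ b ∈ A, rt p e a (G * b) ∈ B)
    {w : MvPolynomial σ K} (hw : w ∈ Fr p e I * A) : rt p e a (G * w) ∈ I * B := by
  refine Submodule.mul_induction_on hw (fun x hx b hb => ?_) (fun x y hx hy => ?_)
  · have key : ∀ x ∈ Fr p e I, ∀ b ∈ A, rt p e a (G * (x * b)) ∈ I * B := by
      intro x hx
      refine Submodule.span_induction (p := fun x _ => ∀ b ∈ A, rt p e a (G * (x * b)) ∈ I * B)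
        ?_ ?_ ?_ ?_ hx
      · rintro _ ⟨m, hm, rfl⟩ b hb
        have h1 : G * (iterateFrobenius (MvPolynomial σ K) p e m * b) = m ^ p ^ e * (G * b) := by
          rw [iterateFrobenius_def]; ring
        rw [h1, rt_pow_mul p e ha]
        exact Ideal.mul_mem_mul hm (hAB b hb)
      · intro b _
        rw [zero_mul, mul_zero, rt_zero]
        exact Ideal.zero_mem _
      · intro x y _ _ hx hy b hb
        rw [add_mul, mul_add, rt_add]
        exact Ideal.add_mem _ (hx b hb) (hy b hb)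
      · intro r x _ hx b hb
        rw [smul_eq_mul, mul_comm r x, mul_assoc]
        exact hx _ (Ideal.mul_mem_left _ _ hb)
    exact key x hx b hb
  · rw [mul_add, rt_add]
    exact Ideal.add_mem _ hx hy

end trace

end Pool.Agent.Helper77.SP1
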