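import Mathlib
import Pool.Agent.Helper77.SP1.Pts

/-!
# The first power, over algebraically closed fields of positive characteristic
-/

set_option autoImplicit false

open MvPolynomial

namespace Pool.Agent.Helper77.SP1

open Pool.Agent.Helper50.Dem Pool.Agent.Helper50.N2

/-- the exponent `(q - 1, …, q - 1)` -/
noncomputable def topE (N q : ℕ) : Fin (N + 1) →₀ ℕ := Finsupp.equivFunOnFinite.symm fun _ => q - 1

lemma topE_apply (N q : ℕ) (i : Fin (N + 1)) : topE N q i = q - 1 := rfl

lemma topE_degree (N q : ℕ) : (topE N q).degree = (N + 1) * (q - 1) := by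
  rw [Finsupp.degree_eq_sum]
  simp [topE_apply]

section field

variable {K : Type*} [Field K] {N : ℕ}

/-- a monomial divisible by the `q`-th powers of `s` variables -/
lemma monomial_mem (p : ℕ) [Fact p.Prime] [CharP K p] (e : ℕ) {S : Finset (Fin (N + 1))}
    {v : Fin (N + 1) →₀ ℕ} (hS : ∀ i ∈ S, p ^ e ≤ v i) {n : ℕ}
    (hn : n + S.card * p ^ e ≤ v.degree) (c : K) :
    (monomial v c : MvPolynomial (Fin (N + 1)) K) ∈
      Fr p e (idealOfVars (Fin (N + 1)) K) ^ S.card * idealOfVars (Fin (N + 1)) K ^ n := by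
  classical
  set g : Fin (N + 1) →₀ ℕ := ∑ i ∈ S, Finsupp.single i (p ^ e) with hg
  have hgi : ∀ i, g i = if i ∈ S then p ^ e else 0 := by
    intro i
    rw [hg, Finsupp.finsetSum_apply]
    simp [Finsupp.single_apply]
  have hgv : g ≤ v := by
    intro i
    rw [hgi]
    split_ifs with h
    · exact hS i h
    · exact Nat.zero_le _
  have hdeg : g.degree = S.card * p ^ e := by
    rw [hg, map_sum]
    simp [Finsupp.degree_single]
  have h1 : (monomial v c : MvPolynomial (Fin (N + 1)) K)
      = (∏ i ∈ S, (X i) ^ p ^ e) * monomial (v - g) c := by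
    have h2 : (∏ i ∈ S, (X i : MvPolynomial (Fin (N + 1)) K) ^ p ^ e) = monomial g 1 := by
      rw [hg, monomial_sum_one]
      exact Finset.prod_congr rfl fun i _ => by rw [X_pow_eq_monomial]
    rw [h2, monomial_mul, one_mul, add_tsub_cancel_of_le hgv]
  rw [h1]
  apply Ideal.mul_mem_mul
  · have h2 := Ideal.prod_mem_prod (s := S)
      (I := fun _ => Fr p e (idealOfVars (Fin (N + 1)) K))
      (x := fun i => (X i : MvPolynomial (Fin (N + 1)) K) ^ p ^ e)
      (fun i _ => pow_mem_Fr p e (Ideal.subset_span ⟨i, rfl⟩))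
    rwa [Finset.prod_const] at h2
  · apply idealOfVars_pow_of_form (n := (v - g).degree)
    · have h3 : (v - g).degree + g.degree = v.degree := by
        rw [← map_add, tsub_add_cancel_of_le hgv]
      omega
    · exact isHomogeneous_monomial _ rfl

end field

section closed

variable {K : Type*} [Field K] [IsAlgClosed K] (p : ℕ) [Fact p.Prime] [CharP K p] (e : ℕ)

lemma rt_monomial_self {σ : Type} (a : σ →₀ ℕ) :
    rt p e a (monomial a (1 : K)) = 1 := by
  classical
  apply rt_ext
  intro c
  rw [coeff_one, coeff_monomial]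
  by_cases hc : 0 = c
  · subst hc
    simp
  · rw [if_neg hc, zero_pow (q_pos p e).ne', if_neg]
    intro h
    apply hc
    have h1 : p ^ e • c = 0 := by
      have h2 : p ^ e • c + a = 0 + a := by rw [zero_add]; exact h.symm
      exact add_right_cancel h2
    ext i
    have h3 := DFunLike.congr_fun h1 i
    simp only [Finsupp.coe_smul, Pi.smul_apply, smul_eq_mul, Finsupp.coe_zero, Pi.zero_apply] at h3
    have := (Nat.mul_eq_zero.1 h3).resolve_left (q_pos p e).ne'
    simp [this]

include p in
/-- **the first power**: forms all of whose monomials involve at least `s ≤ N - 1` variables -/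
theorem coreA {N : ℕ} {ι : Type*} [Fintype ι] {P : ι → Fin (N + 1) → K} (hP : ∀ z, P z ≠ 0)
    (hne : ∀ z z', z ≠ z' → ∀ c : K, P z' ≠ c • P z) {μ : ι → ℕ}
    {F : MvPolynomial (Fin (N + 1)) K} {d : ℕ} (hF : F.IsHomogeneous d)
    (hV : ∀ z, F ∈ Vi (P z) (μ z + (N - 1))) {s : ℕ} (hs : s + 1 ≤ N)
    (hsupp : ∀ u ∈ F.support, s ≤ u.support.card) :
    F ∈ idealOfVars (Fin (N + 1)) K ^ s * AA P μ := by
  classical
  obtain ⟨C, hC⟩ := AA_lemma hP hne p μ
  set e := C + 2 + ∑ z, μ z with he
  have hpe : e < p ^ e := Nat.lt_pow_self (Fact.out : p.Prime).one_lt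
  set q := p ^ e with hq
  have ha : ∀ i, topE N q i < p ^ e := by
    intro i
    rw [topE_apply]
    omega
  set w := monomial (topE N q) (1 : K) * F with hw
  have hFA : F ∈ AA P μ := (form_mem_AA hP hF).2 fun z => Vi_mono (by omega) (hV z)
  have hwA : w ∈ AA P μ := Ideal.mul_mem_left _ _ hFA
  have hwN : w ∈ Fr p e (idealOfVars (Fin (N + 1)) K) ^ s *
      idealOfVars (Fin (N + 1)) K ^ ((N + 1 - s) * (q - 1)) := by
    rw [hw, F.as_sum, Finset.mul_sum]
    apply Ideal.sum_mem
    intro u hu
    obtain ⟨S, hS1, hS2⟩ := Finset.exists_subset_card_eq (hsupp u hu)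
    rw [monomial_mul, one_mul]
    have h1 := monomial_mem p e (S := S) (v := topE N q + u) (K := K) (N := N)
      (n := (N + 1 - s) * (q - 1)) (fun i hi => by
        rw [Finsupp.add_apply, topE_apply]
        have := Finsupp.mem_support_iff.1 (hS1 hi)
        omega) (by
        rw [map_add, topE_degree, hS2]
        have h2 : s ≤ u.degree := by
          have h3 : u.degree = ∑ i ∈ u.support, u i := rfl
          rw [h3]
          calc s = ∑ i ∈ S, 1 := by rw [Finset.sum_const, hS2, smul_eq_mul, mul_one]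
            _ ≤ ∑ i ∈ S, u i := Finset.sum_le_sum fun i hi => by
                have := Finsupp.mem_support_iff.1 (hS1 hi)
                omega
            _ ≤ ∑ i ∈ u.support, u i := Finset.sum_le_sum_of_subset hS1
        have h4 : (N + 1) * (q - 1) = (N + 1 - s) * (q - 1) + s * (q - 1) := by
          rw [← add_mul]; congr 1; omega
        have h5 : s * q = s * (q - 1) + s := by
          have h6 : q = (q - 1) + 1 := by omega
          conv_lhs => rw [h6]
          ring
        have h7 : s * p ^ e = s * q := rfl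
        omega) (coeff u F)
    rwa [hS2] at h1
  have hn : p ^ e + C ≤ (N + 1 - s) * (q - 1) := by
    have h1 : 2 * (q - 1) ≤ (N + 1 - s) * (q - 1) := Nat.mul_le_mul_right _ (by omega)
    omega
  have hμ : ∀ z, μ z ≤ p ^ e := by
    intro z
    have := Finset.single_le_sum (f := μ) (fun _ _ => Nat.zero_le _) (Finset.mem_univ z)
    omega
  have h1 := hC e hμ _ hn s w hwA hwN
  have h2 : Fr p e (idealOfVars (Fin (N + 1)) K) ^ s = Fr p e (idealOfVars (Fin (N + 1)) K ^ s) :=
    (Ideal.map_pow _ _ _).symm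
  rw [h2] at h1
  have h3 := rt_mem_mul p e ha (F ^ (q - 1)) (A := AA P μ) (B := AA P μ) (fun b hb => by
    refine rt_mem_AA p e hP ha hF hV ?_ hb
    intro z j hj
    have h4 : q * j ≤ q * (μ z - 1) := Nat.mul_le_mul_left _ (by omega)
    obtain ⟨m, hm⟩ : ∃ m, μ z = m + 1 := ⟨μ z - 1, by omega⟩
    obtain ⟨r, hr⟩ : ∃ r, q = r + 1 := ⟨q - 1, by omega⟩
    obtain ⟨M, hM⟩ : ∃ M, N = M + 1 := ⟨N - 1, by omega⟩
    rw [← hq, hm, hM]
    rw [hm] at h4
    simp only [Nat.add_sub_cancel] at h4 ⊢
    rw [hr] at h4 ⊢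
    simp only [Nat.add_sub_cancel] at h4 ⊢
    nlinarith) h1
  have h4 : F ^ (q - 1) * w = F ^ p ^ e * monomial (topE N q) (1 : K) := by
    rw [hw]
    have h5 : p ^ e = (q - 1) + 1 := by omega
    rw [h5, pow_succ]; ring
  rw [h4, rt_pow_mul p e ha, rt_monomial_self, mul_one] at h3
  exact h3

end closed

end Pool.Agent.Helper77.SP1
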