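import Mathlib
import Pool.Agent.Helper77.SP1.CoreA

/-!
# Linear changes of coordinates, and the first power over algebraically closed fields
-/

set_option autoImplicit false

open MvPolynomial

namespace Pool.Agent.Helper77.SP1

open Pool.Agent.Helper50.Dem Pool.Agent.Helper50.N2

section phi

variable {K : Type*} [Field K] {N : ℕ}

/-- the substitution `x ↦ A x` -/
noncomputable def phi (A : Matrix (Fin (N + 1)) (Fin (N + 1)) K) :
    MvPolynomial (Fin (N + 1)) K →ₐ[K] MvPolynomial (Fin (N + 1)) K :=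
  aeval fun i => ∑ j, C (A i j) * X j

lemma phi_X (A : Matrix (Fin (N + 1)) (Fin (N + 1)) K) (i : Fin (N + 1)) :
    phi A (X i) = ∑ j, C (A i j) * X j := by simp [phi]

lemma phi_C (A : Matrix (Fin (N + 1)) (Fin (N + 1)) K) (c : K) : phi A (C c) = C c := by
  simp [phi]

lemma phi_phi (A B : Matrix (Fin (N + 1)) (Fin (N + 1)) K) (f : MvPolynomial (Fin (N + 1)) K) :
    phi A (phi B f) = phi (B * A) f := by
  have : (phi A).comp (phi B) = phi (B * A) := by
    apply MvPolynomial.algHom_ext
    intro i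
    rw [AlgHom.comp_apply, phi_X, phi_X, map_sum]
    simp only [map_mul, phi_C, phi_X, Finset.mul_sum, Matrix.mul_apply, map_sum, Finset.sum_mul]
    rw [Finset.sum_comm]
    exact Finset.sum_congr rfl fun j _ => Finset.sum_congr rfl fun k _ => by
      rw [← mul_assoc]
  exact congrArg (fun φ => φ f) this

lemma phi_one (f : MvPolynomial (Fin (N + 1)) K) : phi (1 : Matrix (Fin (N + 1)) (Fin (N + 1)) K) f = f := by
  have : phi (1 : Matrix (Fin (N + 1)) (Fin (N + 1)) K) = AlgHom.id K _ := by
    apply MvPolynomial.algHom_ext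
    intro i
    rw [phi_X, AlgHom.id_apply, Finset.sum_eq_single i]
    · simp
    · intro j _ hj
      rw [Matrix.one_apply_ne hj.symm, C_0, zero_mul]
    · intro h; exact absurd (Finset.mem_univ _) h
  exact congrArg (fun φ => φ f) this

lemma eval_phi (A : Matrix (Fin (N + 1)) (Fin (N + 1)) K) (x : Fin (N + 1) → K)
    (f : MvPolynomial (Fin (N + 1)) K) : eval x (phi A f) = eval (A.mulVec x) f := by
  have : (eval x).comp (phi A : MvPolynomial (Fin (N + 1)) K →ₐ[K] MvPolynomial (Fin (N + 1)) K).toRingHom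
      = eval (A.mulVec x) := by
    apply MvPolynomial.ringHom_ext
    · intro r; simp
    · intro i
      simp [phi_X, Matrix.mulVec, dotProduct]
  exact congrArg (fun φ => φ f) this

lemma tr_phi (A : Matrix (Fin (N + 1)) (Fin (N + 1)) K) (x : Fin (N + 1) → K)
    (f : MvPolynomial (Fin (N + 1)) K) : tr x (phi A f) = phi A (tr (A.mulVec x) f) := by
  have : (tr x).comp (phi A) = (phi A).comp (tr (A.mulVec x)) := by
    apply MvPolynomial.algHom_ext
    intro i
    rw [AlgHom.comp_apply, AlgHom.comp_apply, phi_X, tr_X, map_sum, map_add, phi_X, phi_C]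
    simp only [map_mul, tr_C, tr_X, mul_add, Finset.sum_add_distrib, Matrix.mulVec, dotProduct,
      map_sum]
  exact congrArg (fun φ => φ f) this

lemma phi_isHomogeneous (A : Matrix (Fin (N + 1)) (Fin (N + 1)) K) {d : ℕ}
    {f : MvPolynomial (Fin (N + 1)) K} (hf : f.IsHomogeneous d) : (phi A f).IsHomogeneous d := by
  have h := hf.aeval (S := K) (g := fun i => ∑ j, C (A i j) * X j) (n := 1) (fun i =>
    IsHomogeneous.sum _ _ _ fun j _ => isHomogeneous_C_mul_X _ _)
  rw [one_mul] at h
  exact h

lemma phi_vars (A : Matrix (Fin (N + 1)) (Fin (N + 1)) K) (k : ℕ) :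
    (idealOfVars (Fin (N + 1)) K ^ k).map (phi A) ≤ idealOfVars (Fin (N + 1)) K ^ k := by
  rw [Ideal.map_pow]
  apply Ideal.pow_right_mono
  unfold idealOfVars
  rw [Ideal.map_span, Ideal.span_le]
  rintro _ ⟨_, ⟨i, rfl⟩, rfl⟩
  rw [SetLike.mem_coe, phi_X]
  exact Ideal.sum_mem _ fun j _ => Ideal.mul_mem_left _ _ (Ideal.subset_span ⟨j, rfl⟩)

lemma phi_mem_Vi (A : Matrix (Fin (N + 1)) (Fin (N + 1)) K) {x : Fin (N + 1) → K} {k : ℕ}
    {f : MvPolynomial (Fin (N + 1)) K} (hf : f ∈ Vi (A.mulVec x) k) : phi A f ∈ Vi x k := by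
  unfold Vi at *
  rw [Ideal.mem_comap] at *
  rw [tr_phi]
  exact phi_vars A k (Ideal.mem_map_of_mem _ hf)

lemma phi_AA (A : Matrix (Fin (N + 1)) (Fin (N + 1)) K) {ι : Type*} {P Q : ι → Fin (N + 1) → K}
    (hP : ∀ z, P z ≠ 0) (hQ : ∀ z, Q z ≠ 0) (hPQ : ∀ z, A.mulVec (P z) = Q z) (ν : ι → ℕ) :
    (AA Q ν).map (phi A) ≤ AA P ν := by
  rw [AA_eq_JJ hQ, JJ, Ideal.map_span, Ideal.span_le]
  rintro _ ⟨u, ⟨⟨n, hn⟩, hu⟩, rfl⟩
  rw [SetLike.mem_coe]
  refine (form_mem_AA hP (phi_isHomogeneous A hn)).2 fun z => phi_mem_Vi A ?_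
  rw [hPQ]
  exact hu z

lemma coeff_single_form {d : ℕ} {f : MvPolynomial (Fin (N + 1)) K} (hf : f.IsHomogeneous d)
    (j : Fin (N + 1)) : coeff (Finsupp.single j d) f = eval (Pi.single j 1) f := by
  classical
  rw [eval_eq', Finset.sum_eq_single (Finsupp.single j d)]
  · rw [Finset.prod_eq_one, mul_one]
    intro i _
    by_cases h : i = j
    · subst h; simp
    · rw [Finsupp.single_eq_of_ne h, pow_zero]
  · intro u hu hne
    have hdeg : u.degree = d := by
      by_contra h
      exact (mem_support_iff.1 hu) (hf.coeff_eq_zero h)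
    obtain ⟨i, hij, hi⟩ : ∃ i, i ≠ j ∧ u i ≠ 0 := by
      by_contra hcon
      push Not at hcon
      apply hne
      have h1 : u = Finsupp.single j (u j) := by
        ext i
        by_cases h : i = j
        · subst h; simp
        · rw [hcon i h, Finsupp.single_eq_of_ne h]
      rw [h1, Finsupp.degree_single] at hdeg
      rw [h1, hdeg]
    rw [Finset.prod_eq_zero (Finset.mem_univ i), mul_zero]
    rw [Pi.single_eq_of_ne hij, zero_pow hi]
  · intro h
    rw [notMem_support_iff.1 h, zero_mul]

end phi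

section basis

variable {K : Type*} [Field K] [IsAlgClosed K] {N : ℕ}

/-- the zeros of a form span, or it is a power of a linear form up to a constant -/
lemma exists_basis {F : MvPolynomial (Fin (N + 1)) K} {d : ℕ} (hF : F.IsHomogeneous d)
    (h0 : F ≠ 0) : (∃ A : Matrix (Fin (N + 1)) (Fin (N + 1)) K, IsUnit A ∧
      ∀ j, eval (fun i => A i j) F = 0) ∨
      ∃ (c : K) (l : MvPolynomial (Fin (N + 1)) K), l.IsHomogeneous 1 ∧ F = C c * l ^ d := by
  classical
  by_cases hW : Submodule.span K {v : Fin (N + 1) → K | eval v F = 0} = ⊤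
  · left
    let B := Module.Basis.ofSpan (K := K) hW.ge
    have hB : ∀ i, eval (B i) F = 0 := fun i =>
      Module.Basis.ofSpan_subset (K := K) hW.ge ⟨i, rfl⟩
    have hfin : Finite ↑((linearIndepOn_empty K (id : (Fin (N + 1) → K) → _)).extend
        (Set.empty_subset {v : Fin (N + 1) → K | eval v F = 0})) := Module.Finite.finite_basis B
    let hft := Fintype.ofFinite ↑((linearIndepOn_empty K (id : (Fin (N + 1) → K) → _)).extend
        (Set.empty_subset {v : Fin (N + 1) → K | eval v F = 0}))
    have hcard := Module.finrank_eq_card_basis B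
    rw [Module.finrank_fin_fun] at hcard
    let E := Fintype.equivFinOfCardEq hcard.symm
    let B' := B.reindex E
    refine ⟨Matrix.of fun i j => B' j i, ?_, fun j => ?_⟩
    · rw [← Matrix.linearIndependent_cols_iff_isUnit]
      exact B'.linearIndependent
    · have h1 : (fun i => Matrix.of (fun i j => B' j i) i j) = B (E.symm j) := by
        funext i
        simp [B']
      rw [h1]
      exact hB _
  · right
    obtain ⟨φ, hφ0, hφ⟩ := Submodule.exists_le_ker_of_lt_top _ (lt_top_iff_ne_top.2 hW)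
    set l : MvPolynomial (Fin (N + 1)) K := ∑ i, C (φ (Pi.single i 1)) * X i with hl
    have hlh : l.IsHomogeneous 1 := IsHomogeneous.sum _ _ _ fun i _ => isHomogeneous_C_mul_X _ _
    have hlev : ∀ x, eval x l = φ x := by
      intro x
      rw [hl, map_sum]
      simp only [map_mul, eval_C, eval_X]
      conv_rhs => rw [pi_eq_sum_univ' x]
      rw [map_sum]
      apply Finset.sum_congr rfl
      intro i _
      rw [map_smul, smul_eq_mul, mul_comm]
    have hl0 : l ≠ 0 := by
      intro h
      apply hφ0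
      ext x
      simp [← hlev, h]
    have hprime : Prime l := by
      apply Irreducible.prime
      apply irreducible_of_totalDegree_eq_one (hlh.totalDegree hl0)
      intro x hx
      rw [isUnit_iff_ne_zero]
      rintro rfl
      apply hl0
      ext u
      rw [coeff_zero]
      exact zero_dvd_iff.1 (hx u)
    have hrad : l ∈ (Ideal.span {F}).radical := by
      rw [← vanishingIdeal_zeroLocus_eq_radical (K := K), mem_vanishingIdeal_iff]
      intro x hx
      have h1 : eval x F = 0 := by
        have := (mem_zeroLocus_iff.1 hx) F (Ideal.mem_span_singleton_self F)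
        rwa [aeval_eq_eval] at this
      rw [aeval_eq_eval]
      change eval x l = 0
      rw [hlev]
      exact hφ (Submodule.subset_span h1)
    obtain ⟨k, hk⟩ := hrad
    rw [Ideal.mem_span_singleton] at hk
    obtain ⟨j, _, hj⟩ := (dvd_prime_pow hprime k).1 hk
    obtain ⟨v, hv⟩ := hj.symm
    have hvu := v.isUnit
    rw [MvPolynomial.isUnit_iff_eq_C_of_isReduced] at hvu
    obtain ⟨c, _, hc⟩ := hvu
    have hFj : F = C c * l ^ j := by rw [← hv, hc, mul_comm]
    have hjd : j = d := by
      have h1 : (C c * l ^ j).IsHomogeneous (0 + 1 * j) := (isHomogeneous_C _ _).mul (hlh.pow j)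
      rw [← hFj] at h1
      have := IsHomogeneous.inj_right hF h1 h0
      omega
    exact ⟨c, l, hlh, by rw [← hjd]; exact hFj⟩

end basis

end Pool.Agent.Helper77.SP1
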