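import Mathlib
import Pool.Agent.Helper77.SP1.CoordA

/-!
# The first power over algebraically closed fields of positive characteristic
-/

set_option autoImplicit false

open MvPolynomial

namespace Pool.Agent.Helper77.SP1

open Pool.Agent.Helper50.Dem Pool.Agent.Helper50.N2

variable {K : Type*} [Field K] [IsAlgClosed K] (p : ℕ) [Fact p.Prime] [CharP K p]

omit [IsAlgClosed K] in
lemma degree_of_support {σ : Type} {F : MvPolynomial σ K} {d : ℕ} (hF : F.IsHomogeneous d)
    {u : σ →₀ ℕ} (hu : u ∈ F.support) : u.degree = d := by
  by_contra h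
  exact (mem_support_iff.1 hu) (hF.coeff_eq_zero h)

include p in
theorem closedA {N : ℕ} (hN : 1 ≤ N) {ι : Type*} [Fintype ι] [Nonempty ι]
    {P : ι → Fin (N + 1) → K} (hP : ∀ z, P z ≠ 0)
    (hne : ∀ z z', z ≠ z' → ∀ c : K, P z' ≠ c • P z) {μ : ι → ℕ}
    {F : MvPolynomial (Fin (N + 1)) K} {d : ℕ} (hF : F.IsHomogeneous d)
    (hV : ∀ z, F ∈ Vi (P z) (μ z + (N - 1))) :
    F ∈ idealOfVars (Fin (N + 1)) K ^ (min (N - 1) 2) * AA P μ := by
  classical
  by_cases h0 : F = 0
  · rw [h0]; exact Ideal.zero_mem _
  obtain ⟨z0⟩ : Nonempty ι := inferInstance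
  have hd : μ z0 + (N - 1) ≤ d := order_le_degree hF h0 (P z0) (hV z0)
  by_cases hN3 : N ≤ 2
  · rw [min_eq_left (by omega)]
    refine coreA p hP hne hF hV (by omega) fun u hu => ?_
    have hud := degree_of_support hF hu
    by_cases hN1 : N = 1
    · omega
    · have h1 : u.support.Nonempty := by
        rw [Finset.nonempty_iff_ne_empty]
        intro h
        rw [Finsupp.support_eq_empty] at h
        rw [h, map_zero] at hud
        omega
      have := h1.card_pos
      omega
  · push Not at hN3
    rw [min_eq_right (by omega)]
    rcases exists_basis hF h0 with ⟨A, hA, hAz⟩ | ⟨c, l, hl, hFl⟩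
    · have hdet : IsUnit A.det := (Matrix.isUnit_iff_isUnit_det A).1 hA
      have hAA : A * A⁻¹ = 1 := Matrix.mul_nonsing_inv A hdet
      set P' : ι → Fin (N + 1) → K := fun z => A⁻¹.mulVec (P z) with hP'
      have hAP : ∀ z, A.mulVec (P' z) = P z := by
        intro z
        rw [hP']
        beta_reduce
        rw [Matrix.mulVec_mulVec, hAA, Matrix.one_mulVec]
      have hP'0 : ∀ z, P' z ≠ 0 := by
        intro z h
        apply hP z
        rw [← hAP z, h, Matrix.mulVec_zero]
      have hne' : ∀ z z', z ≠ z' → ∀ c : K, P' z' ≠ c • P' z := by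
        intro z z' hz c h
        apply hne z z' hz c
        rw [← hAP z', ← hAP z, h, Matrix.mulVec_smul]
      have hF' := phi_isHomogeneous A hF
      have h1 : phi A F ∈ idealOfVars (Fin (N + 1)) K ^ 2 * AA P' μ := by
        refine coreA p hP'0 hne' hF' (fun z => phi_mem_Vi A (by rw [hAP]; exact hV z)) (by omega)
          fun u hu => ?_
        have hud := degree_of_support hF' hu
        by_contra hcard
        push Not at hcard
        have h2 : u.support.Nonempty := by
          rw [Finset.nonempty_iff_ne_empty]
          intro h
          rw [Finsupp.support_eq_empty] at h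
          rw [h, map_zero] at hud
          omega
        have h3 : u.support.card = 1 := by
          have := h2.card_pos
          omega
        obtain ⟨j, hj⟩ := Finset.card_eq_one.1 h3
        have h4 : u = Finsupp.single j d := by
          have h5 : u = Finsupp.single j (u j) := by
            ext i
            by_cases h : i = j
            · subst h; simp
            · rw [Finsupp.single_eq_of_ne h]
              have h6 : i ∉ u.support := by rw [hj, Finset.mem_singleton]; exact h
              exact Finsupp.notMem_support_iff.1 h6
          rw [h5, Finsupp.degree_single] at hud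
          rw [h5, hud]
        apply mem_support_iff.1 hu
        rw [h4, coeff_single_form hF', eval_phi, Matrix.mulVec_single_one]
        exact hAz j
      have h2 : phi A⁻¹ (phi A F) ∈ (idealOfVars (Fin (N + 1)) K ^ 2 * AA P' μ).map (phi A⁻¹) :=
        Ideal.mem_map_of_mem _ h1
      rw [phi_phi, hAA, phi_one, Ideal.map_mul] at h2
      exact Ideal.mul_mono (phi_vars _ 2) (phi_AA A⁻¹ hP hP'0 (fun _ => rfl) μ) h2
    · have hlP : ∀ z, eval (P z) l = 0 := by
        intro z
        by_contra h
        have h1 := mem_Vi.1 (hV z) 0 (by simp; omega)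
        have h2 : coeff 0 (tr (P z) F) = eval (P z) F := by
          have h3 : (constantCoeff : MvPolynomial (Fin (N + 1)) K →+* K).comp
              (tr (P z) : MvPolynomial (Fin (N + 1)) K →ₐ[K] MvPolynomial (Fin (N + 1)) K).toRingHom
              = eval (P z) := by
            apply MvPolynomial.ringHom_ext
            · intro r; simp
            · intro i; simp
          exact congrArg (fun φ => φ F) h3
        rw [h2, hFl, map_mul, map_pow, eval_C] at h1
        rcases mul_eq_zero.1 h1 with h3 | h3
        · apply h0
          rw [hFl, h3, C_0, zero_mul]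
        · exact h ((pow_eq_zero_iff (n := d) (by omega)).1 h3)
      have hl2 : l ^ (d - 2) ∈ AA P μ := by
        rw [mem_AA]
        intro z
        have hd' : μ z + (N - 1) ≤ d := order_le_degree hF h0 (P z) (hV z)
        exact Ideal.pow_le_pow_right (by omega)
          (Ideal.pow_mem_pow (lin_form_mem (hP z) hl (hlP z)) (d - 2))
      have h1 : F = (C c * l ^ 2) * l ^ (d - 2) := by
        rw [hFl, mul_assoc, ← pow_add]
        congr 2
        omega
      rw [h1]
      apply Ideal.mul_mem_mul _ hl2
      apply Ideal.mul_mem_left
      apply Ideal.pow_mem_pow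
      have h2 := idealOfVars_pow_of_form (k := 1) le_rfl hl
      rwa [pow_one] at h2

end Pool.Agent.Helper77.SP1
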