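import Mathlib
import Pool.Agent.Helper77.SP1.CoreA

/-!
# All powers, over algebraically closed fields of positive characteristic
-/

set_option autoImplicit false

open MvPolynomial

namespace Pool.Agent.Helper77.SP1

open Pool.Agent.Helper50.Dem Pool.Agent.Helper50.N2

section ring

variable {σ : Type} {K : Type*} [CommRing K] {ι : Type*}

/-- the ideal generated by the forms of degree `≤ D` vanishing to order `μ z` at `P z` -/
noncomputable def JD (P : ι → σ → K) (μ : ι → ℕ) (D : ℕ) : Ideal (MvPolynomial σ K) :=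
  Ideal.span {f | (∃ n ≤ D, f.IsHomogeneous n) ∧ ∀ z, f ∈ Vi (P z) (μ z)}

lemma mem_JD {P : ι → σ → K} {μ : ι → ℕ} {D n : ℕ} {f : MvPolynomial σ K} (hn : n ≤ D)
    (hf : f.IsHomogeneous n) (h : ∀ z, f ∈ Vi (P z) (μ z)) : f ∈ JD P μ D :=
  Ideal.subset_span ⟨⟨n, hn, hf⟩, h⟩

lemma JD_le_JJ (P : ι → σ → K) (μ : ι → ℕ) (D : ℕ) : JD P μ D ≤ JJ P μ := by
  unfold JD JJ
  apply Ideal.span_mono
  rintro f ⟨⟨n, _, hn⟩, h⟩
  exact ⟨⟨n, hn⟩, h⟩

lemma HI_JD (P : ι → σ → K) (μ : ι → ℕ) (D : ℕ) : HI (JD P μ D) := by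
  apply HI_span
  rintro f ⟨⟨n, _, hn⟩, _⟩
  exact ⟨n, hn⟩

/-- membership of a form in an ideal generated by forms only involves the generators of degree at
most the degree of the form -/
lemma form_mem_of_span {S : Set (MvPolynomial σ K)} {n : ℕ} {I : Ideal (MvPolynomial σ K)}
    (hS : ∀ s ∈ S, ∃ k : ℕ, s.IsHomogeneous k ∧ (k ≤ n → s ∈ I)) {f : MvPolynomial σ K}
    (hf : f ∈ Ideal.span S) (hfn : f.IsHomogeneous n) : f ∈ I := by
  classical
  obtain ⟨c, hc1, hc2⟩ := Submodule.mem_span_set.1 hf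
  rw [← homogeneousComponent_eq_self hfn, ← hc2, Finsupp.sum, map_sum]
  apply Ideal.sum_mem
  intro s hs
  obtain ⟨k, hk, hkI⟩ := hS s (hc1 hs)
  rw [smul_eq_mul]
  by_cases hkn : k ≤ n
  · obtain ⟨e, he⟩ : ∃ e, n = e + k := ⟨n - k, by omega⟩
    rw [he, hc_mul_form hk]
    exact Ideal.mul_mem_left _ _ (hkI hkn)
  · rw [hc_mul_form_of_lt hk _ (by omega)]
    exact Ideal.zero_mem _

end ring

section field

variable {K : Type*} [Field K] {N : ℕ} {ι : Type*}

/-- a form of degree `n` of `M * ⋂ I(P_z)^{μ z}` is a combination of forms of degree `< n` -/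
lemma form_mem_JD {P : ι → Fin (N + 1) → K} (hP : ∀ z, P z ≠ 0) {μ : ι → ℕ} {n : ℕ}
    {f : MvPolynomial (Fin (N + 1)) K} (hf : f ∈ idealOfVars (Fin (N + 1)) K * AA P μ)
    (hfn : f.IsHomogeneous n) : f ∈ JD P μ (n - 1) := by
  rw [AA_eq_JJ hP, JJ, idealOfVars, Ideal.span_mul_span'] at hf
  refine form_mem_of_span ?_ hf hfn
  rintro _ ⟨_, ⟨i, rfl⟩, g, ⟨⟨k, hk⟩, hg⟩, rfl⟩
  refine ⟨1 + k, (isHomogeneous_X _ _).mul hk, fun h => ?_⟩
  exact Ideal.mul_mem_left _ _ (mem_JD (by omega) hk hg)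

/-- a form of degree `n` of `M ^ s * ⋂ I(P_z)^{μ z}` -/
lemma form_mem_mul_JD {P : ι → Fin (N + 1) → K} (hP : ∀ z, P z ≠ 0) {μ : ι → ℕ} {n s : ℕ}
    {f : MvPolynomial (Fin (N + 1)) K} (hf : f ∈ idealOfVars (Fin (N + 1)) K ^ s * AA P μ)
    (hfn : f.IsHomogeneous n) : f ∈ idealOfVars (Fin (N + 1)) K ^ s * JD P μ n := by
  rw [AA_eq_JJ hP, (HI_vars.pow s).eq_span, JJ, Ideal.span_mul_span'] at hf
  refine form_mem_of_span ?_ hf hfn
  rintro _ ⟨u, ⟨⟨m, hm⟩, hu⟩, g, ⟨⟨k, hk⟩, hg⟩, rfl⟩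
  refine ⟨m + k, hm.mul hk, fun h => ?_⟩
  exact Ideal.mul_mem_mul hu (mem_JD (by omega) hk hg)

end field

section closed

variable {K : Type*} [Field K] [IsAlgClosed K] (p : ℕ) [Fact p.Prime] [CharP K p] (e : ℕ)

/-- recovering a polynomial from the roots of its components -/
lemma mem_Fr_of_rt {σ : Type} {I : Ideal (MvPolynomial σ K)} {f : MvPolynomial σ K}
    (h : ∀ b : σ →₀ ℕ, (∀ i, b i < p ^ e) → rt p e b f ∈ I) : f ∈ Fr p e I := by
  classical
  have hq := q_pos p e
  have hmd : ∀ (u : σ →₀ ℕ) i, md (p ^ e) u i < p ^ e := fun u i => by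
    rw [md_apply]; exact Nat.mod_lt _ hq
  have key : f = ∑ b ∈ f.support.image (md (p ^ e)), (rt p e b f) ^ p ^ e * monomial b 1 := by
    ext v
    rw [coeff_sum]
    have hterm : ∀ b : σ →₀ ℕ, (∀ i, b i < p ^ e) → b ≠ md (p ^ e) v →
        coeff v ((rt p e b f) ^ p ^ e * monomial b 1) = 0 := by
      intro b hb hbv
      rw [coeff_mul_monomial', mul_one]
      split_ifs with hle
      · obtain ⟨i, hi⟩ : ∃ i, b i ≠ md (p ^ e) v i := by
          by_contra hcon
          push Not at hcon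
          exact hbv (Finsupp.ext hcon)
        apply coeff_pow_q_of_not_dvd p e _ _ i
        intro hdvd
        apply hi
        rw [md_apply]
        have h1 : (v - b) i = v i - b i := rfl
        rw [h1] at hdvd
        obtain ⟨k, hk⟩ := hdvd
        have h2 : v i = b i + p ^ e * k := by
          have := hle i
          omega
        rw [h2, Nat.add_mul_mod_self_left, Nat.mod_eq_of_lt (hb i)]
      · rfl
    have hmain : coeff v ((rt p e (md (p ^ e) v) f) ^ p ^ e * monomial (md (p ^ e) v) 1)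
        = coeff v f := by
      rw [coeff_mul_monomial', mul_one, if_pos]
      · have h1 : v - md (p ^ e) v = p ^ e • dv (p ^ e) v := by
          conv_lhs => rw [← dv_md (p ^ e) v]
          rw [dv_md]
          ext i
          have h2 := DFunLike.congr_fun (dv_md (p ^ e) v) i
          simp only [Finsupp.coe_add, Finsupp.coe_smul, Pi.add_apply, Pi.smul_apply,
            smul_eq_mul] at h2
          simp only [Finsupp.coe_tsub, Pi.sub_apply, Finsupp.coe_smul, Pi.smul_apply, smul_eq_mul]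
          omega
        rw [h1, coeff_pow_q, rt_spec, dv_md]
      · intro i
        rw [md_apply]
        exact Nat.mod_le _ _
    by_cases hv : md (p ^ e) v ∈ f.support.image (md (p ^ e))
    · rw [Finset.sum_eq_single (md (p ^ e) v), hmain]
      · intro b hb hbv
        obtain ⟨u, _, rfl⟩ := Finset.mem_image.1 hb
        exact hterm _ (hmd u) hbv
      · intro hcon; exact absurd hv hcon
    · rw [Finset.sum_eq_zero]
      · by_contra hcon
        exact hv (Finset.mem_image.2 ⟨v, mem_support_iff.2 hcon, rfl⟩)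
      · intro b hb
        obtain ⟨u, _, rfl⟩ := Finset.mem_image.1 hb
        apply hterm _ (hmd u)
        intro h1
        rw [h1] at hb
        exact hv hb
  rw [key]
  apply Ideal.sum_mem
  intro b hb
  obtain ⟨u, _, rfl⟩ := Finset.mem_image.1 hb
  exact Ideal.mul_mem_right _ _ (pow_mem_Fr p e (h _ (hmd u)))

/-- roots of elements of `Fr I` -/
lemma rt_mem_of_Fr {σ : Type} {b : σ →₀ ℕ} (hb : ∀ i, b i < p ^ e) {I : Ideal (MvPolynomial σ K)}
    {f : MvPolynomial σ K} (hf : f ∈ Fr p e I) : rt p e b f ∈ I := by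
  have h1 := rt_mem_mul p e hb (1 : MvPolynomial σ K) (I := I) (A := ⊤) (B := ⊤) (w := f)
    (fun _ _ => trivial) (by rw [Ideal.mul_top]; exact hf)
  rwa [one_mul, Ideal.mul_top] at h1

/-- a component in terms of the trace -/
lemma rt_eq_top {N : ℕ} {b : Fin (N + 1) →₀ ℕ} (hb : ∀ i, b i < p ^ e)
    (f : MvPolynomial (Fin (N + 1)) K) :
    rt p e b f = rt p e (topE N (p ^ e)) (monomial (topE N (p ^ e) - b) 1 * f) := by
  classical
  symm
  apply rt_ext
  intro c
  rw [rt_spec, coeff_monomial_mul', if_pos, one_mul]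
  · congr 1
    ext i
    have := hb i
    simp only [Finsupp.coe_add, Finsupp.coe_tsub, Finsupp.coe_smul, Pi.add_apply, Pi.smul_apply,
      Pi.sub_apply, smul_eq_mul, topE_apply]
    omega
  · intro i
    simp only [Finsupp.coe_add, Finsupp.coe_tsub, Finsupp.coe_smul, Pi.add_apply, Pi.smul_apply,
      Pi.sub_apply, smul_eq_mul, topE_apply]
    omega

end closed

end Pool.Agent.Helper77.SP1
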