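import Mathlib
import Pool.Agent.Helper77.SP1.CoreB

/-!
# All powers over algebraically closed fields of positive characteristic
-/

set_option autoImplicit false

open MvPolynomial

namespace Pool.Agent.Helper77.SP1

open Pool.Agent.Helper50.Dem Pool.Agent.Helper50.N2

variable {K : Type*} [Field K] [IsAlgClosed K] (p : ℕ) [Fact p.Prime] [CharP K p]

omit [IsAlgClosed K] in
lemma deg_of_support {σ : Type} {F : MvPolynomial σ K} {d : ℕ} (hF : F.IsHomogeneous d)
    {u : σ →₀ ℕ} (hu : u ∈ F.support) : u.degree = d := by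
  by_contra h
  exact (mem_support_iff.1 hu) (hF.coeff_eq_zero h)

/-- arithmetic for the multiplicities, first case -/
lemma arith1 {q N μ a t j : ℕ} (hq : 1 ≤ q) (hN : 1 ≤ N) (hat : q ≤ a * t) (hj : j < μ) :
    q * j + N * (q - 1) < a * (t * (μ + (N - 1))) + 0 := by
  obtain ⟨m, rfl⟩ : ∃ m, μ = m + 1 := ⟨μ - 1, by omega⟩
  obtain ⟨M, rfl⟩ : ∃ M, N = M + 1 := ⟨N - 1, by omega⟩
  obtain ⟨r, rfl⟩ : ∃ r, q = r + 1 := ⟨q - 1, by omega⟩
  have h1 : (r + 1) * j ≤ (r + 1) * m := Nat.mul_le_mul_left _ (by omega)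
  have h2 : (r + 1) * (m + 1 + M) ≤ a * t * (m + 1 + M) := Nat.mul_le_mul_right _ hat
  simp only [Nat.add_sub_cancel, add_zero]
  have h3 : a * (t * (m + 1 + M)) = a * t * (m + 1 + M) := by ring
  rw [h3]
  refine lt_of_lt_of_le ?_ h2
  nlinarith

/-- arithmetic for the multiplicities, second case -/
lemma arith2 {q N μ a t j : ℕ} (hq : 1 ≤ q) (hN : 1 ≤ N) (ha : 1 ≤ a) (ht : 1 ≤ t)
    (hat : q ≤ a * t) (hj : j < μ) :
    q * j + N * (q - 1) < (a - 1) * (t * (μ + (N - 1))) + (μ + (t - 1) * (μ + (N - 1))) := by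
  obtain ⟨m, rfl⟩ : ∃ m, μ = m + 1 := ⟨μ - 1, by omega⟩
  obtain ⟨M, rfl⟩ : ∃ M, N = M + 1 := ⟨N - 1, by omega⟩
  obtain ⟨r, rfl⟩ : ∃ r, q = r + 1 := ⟨q - 1, by omega⟩
  obtain ⟨b, rfl⟩ : ∃ b, a = b + 1 := ⟨a - 1, by omega⟩
  obtain ⟨s, rfl⟩ : ∃ s, t = s + 1 := ⟨t - 1, by omega⟩
  simp only [Nat.add_sub_cancel]
  have h1 : (r + 1) * j ≤ (r + 1) * m := Nat.mul_le_mul_left _ (by omega)
  have h2 : r ≤ b * (s + 1) + s := by nlinarith
  have h3 : r * (m + 1 + M) ≤ (b * (s + 1) + s) * (m + 1 + M) := Nat.mul_le_mul_right _ h2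
  have h4 : b * ((s + 1) * (m + 1 + M)) + (m + 1 + s * (m + 1 + M))
      = (b * (s + 1) + s) * (m + 1 + M) + (m + 1) := by ring
  rw [h4]
  have h5 : (r + 1) * m + (M + 1) * r < r * (m + 1 + M) + (m + 1) := by nlinarith
  omega

include p in
/-- **all powers**, over algebraically closed fields of positive characteristic -/
theorem closedB {N : ℕ} (hN : 2 ≤ N) {ι : Type*} [Fintype ι] [Nonempty ι]
    {P : ι → Fin (N + 1) → K} (hP : ∀ z, P z ≠ 0)
    (hne : ∀ z z', z ≠ z' → ∀ c : K, P z' ≠ c • P z) {μ : ι → ℕ}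
    {F : MvPolynomial (Fin (N + 1)) K} {d t : ℕ} (ht : 0 < t) (hF : F.IsHomogeneous d)
    (hV : ∀ z, F ∈ Vi (P z) (t * (μ z + (N - 1)))) : F ∈ JD P μ ((d - 1) / t) ^ t := by
  classical
  by_cases h0 : F = 0
  · rw [h0]; exact Ideal.zero_mem _
  obtain ⟨z0⟩ : Nonempty ι := inferInstance
  have hd1 : 1 ≤ d := by
    have h1 := order_le_degree hF h0 (P z0) (hV z0)
    have h2 : t * 1 ≤ t * (μ z0 + (N - 1)) := Nat.mul_le_mul_left _ (by omega)
    omega
  set ν : ι → ℕ := fun z => μ z + (t - 1) * (μ z + (N - 1)) with hν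
  obtain ⟨C0, hC⟩ := AA_lemma hP hne p ν
  set e := C0 + 2 + ∑ z, ν z + t * d with he
  have hpe : e < p ^ e := Nat.lt_pow_self (Fact.out : p.Prime).one_lt
  set q := p ^ e with hq
  set a := (q + t - 1) / t with ha
  have hat1 : q ≤ a * t := by
    have h1 := Nat.div_add_mod (q + t - 1) t
    have h2 := Nat.mod_lt (q + t - 1) ht
    rw [← ha] at h1
    rw [mul_comm a t]
    omega
  have hat2 : a * t ≤ q + (t - 1) := by
    have h1 := Nat.div_mul_le_self (q + t - 1) t
    rw [← ha] at h1
    omega
  have ha1 : 1 ≤ a := by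
    rcases Nat.eq_zero_or_pos a with h | h
    · rw [h, zero_mul] at hat1
      omega
    · exact h
  have hqd : t * d < q := by omega
  have htop : ∀ i, topE N (p ^ e) i < p ^ e := by
    intro i
    rw [topE_apply]
    omega
  have hνq : ∀ z, ν z ≤ p ^ e := by
    intro z
    have := Finset.single_le_sum (f := ν) (fun _ _ => Nat.zero_le _) (Finset.mem_univ z)
    omega
  -- the components
  have hcomp : ∀ b : Fin (N + 1) →₀ ℕ, (∀ i, b i < p ^ e) →
      rt p e b (F ^ a) ∈ JD P μ ((d - 1) / t) := by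
    intro b hb
    have hFa := hF.pow a
    rcases rt_form p e hFa (a := b) with h | ⟨n, hdeg, hn⟩
    · rw [h]; exact Ideal.zero_mem _
    have hdeg' : q * n + b.degree = d * a := hdeg
    have hA : rt p e b (F ^ a) ∈ AA P μ := by
      have h1 := rt_mem_AA p e hP hb hF (k := a) (ν := fun _ => 0) (μ := μ) hV
        (fun z j hj => arith1 (by omega) (by omega) hat1 hj)
        (w := 1) (mem_AA.2 fun z => by rw [pow_zero, Ideal.one_eq_top]; trivial)
      rwa [mul_one] at h1
    by_cases hlt : t * n < d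
    · refine mem_JD ?_ hn ((form_mem_AA hP hn).1 hA)
      rw [Nat.le_div_iff_mul_le ht, mul_comm]
      omega
    · push Not at hlt
      have h1 : t * (q * n + b.degree) = d * (a * t) := by rw [hdeg']; ring
      have h2 : d * (a * t) ≤ d * (q + (t - 1)) := Nat.mul_le_mul_left _ hat2
      have h3 : d * (t - 1) ≤ t * d := by
        rw [mul_comm t d]; exact Nat.mul_le_mul_left _ (by omega)
      have htn : t * n = d := by
        apply le_antisymm _ hlt
        by_contra h4
        push Not at h4
        have h5 : (d + 1) * q ≤ t * n * q := Nat.mul_le_mul_right _ h4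
        have h6 : t * (q * n + b.degree) = t * n * q + t * b.degree := by ring
        have h7 : d * (q + (t - 1)) = d * q + d * (t - 1) := by ring
        have h8 : (d + 1) * q = d * q + q := by ring
        omega
      have hbd : b.degree < d := by
        have h6 : t * (q * n + b.degree) = d * q + t * b.degree := by rw [← htn]; ring
        have h7 : d * (q + (t - 1)) = d * q + d * (t - 1) := by ring
        have h8 : t * b.degree ≤ d * (t - 1) := by omega
        by_contra h9
        push Not at h9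
        have h10 : t * d ≤ t * b.degree := Nat.mul_le_mul_left _ h9
        obtain ⟨s, rfl⟩ : ∃ s, t = s + 1 := ⟨t - 1, by omega⟩
        simp only [Nat.add_sub_cancel] at h8
        have h11 : (s + 1) * d = d * s + d := by ring
        omega
      set x := monomial (topE N (p ^ e) - b) (1 : K) * F with hx
      have hble : b ≤ topE N (p ^ e) := by
        intro i
        rw [topE_apply]
        have := hb i
        omega
      have hxA : x ∈ AA P ν := by
        apply Ideal.mul_mem_left
        refine (form_mem_AA hP hF).2 fun z => Vi_mono ?_ (hV z)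
        obtain ⟨s, rfl⟩ : ∃ s, t = s + 1 := ⟨t - 1, by omega⟩
        simp only [hν, Nat.add_sub_cancel]
        have h4 : (s + 1) * (μ z + (N - 1)) = s * (μ z + (N - 1)) + (μ z + (N - 1)) := by ring
        omega
      have hxN : x ∈ Fr p e (idealOfVars (Fin (N + 1)) K) ^ 1 *
          idealOfVars (Fin (N + 1)) K ^ (N * (q - 1)) := by
        rw [hx, F.as_sum, Finset.mul_sum]
        apply Ideal.sum_mem
        intro u hu
        have hud := deg_of_support hF hu
        obtain ⟨i, hi⟩ : ∃ i, b i < u i := by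
          by_contra hcon
          push Not at hcon
          have h4 : u.degree ≤ b.degree := by
            rw [Finsupp.degree_eq_sum, Finsupp.degree_eq_sum]
            exact Finset.sum_le_sum fun i _ => hcon i
          omega
        rw [monomial_mul, one_mul]
        have h4 := monomial_mem p e (S := {i}) (v := topE N (p ^ e) - b + u) (K := K) (N := N)
          (n := N * (q - 1)) (fun i' hi' => by
            rw [Finset.mem_singleton] at hi'
            subst hi'
            have h5 : (topE N (p ^ e) - b + u) i' = (p ^ e - 1 - b i') + u i' := rfl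
            rw [h5]
            have := hb i'
            omega) (by
            rw [map_add, Finset.card_singleton, one_mul]
            have h5 : (topE N (p ^ e) - b).degree + b.degree = (N + 1) * (q - 1) := by
              rw [← map_add, tsub_add_cancel_of_le hble, topE_degree]
            have h6 : (N + 1) * (q - 1) = N * (q - 1) + (q - 1) := by ring
            have h7 : p ^ e = q := rfl
            omega) (coeff u F)
        rwa [Finset.card_singleton] at h4
      have hn' : p ^ e + C0 ≤ N * (q - 1) := by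
        have h4 : 2 * (q - 1) ≤ N * (q - 1) := Nat.mul_le_mul_right _ hN
        omega
      have h4 := hC e hνq _ hn' 1 x hxA hxN
      rw [pow_one] at h4
      have h5 := rt_mem_mul p e htop (F ^ (a - 1)) (A := AA P ν) (B := AA P μ) (fun w hw => by
        refine rt_mem_AA p e hP htop hF (k := a - 1) (ν := ν) (μ := μ) hV ?_ hw
        intro z j hj
        exact arith2 (by omega) (by omega) ha1 ht hat1 hj) h4
      have h6 : F ^ (a - 1) * x = monomial (topE N (p ^ e) - b) (1 : K) * F ^ a := by
        obtain ⟨a', ha'⟩ : ∃ a', a = a' + 1 := ⟨a - 1, by omega⟩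
        rw [hx, ha', Nat.add_sub_cancel, pow_succ]; ring
      rw [h6, ← rt_eq_top p e hb] at h5
      have h7 := form_mem_JD hP h5 hn
      have h8 : (d - 1) / t = n - 1 := by
        have hn1 : 1 ≤ n := by
          by_contra h9
          have : n = 0 := by omega
          rw [this, mul_zero] at htn
          omega
        obtain ⟨m, rfl⟩ : ∃ m, n = m + 1 := ⟨n - 1, by omega⟩
        rw [Nat.add_sub_cancel]
        apply Nat.div_eq_of_lt_le
        · have : t * (m + 1) = m * t + t := by ring
          omega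
        · have : t * (m + 1) = (m + 1) * t := by ring
          omega
      rw [h8]
      exact h7
  have h1 : F ^ a ∈ Fr p e (JD P μ ((d - 1) / t)) := mem_Fr_of_rt p e hcomp
  have h2 : F ^ p ^ e * F ^ t ∈ Fr p e (JD P μ ((d - 1) / t) ^ t) := by
    have h3 : (F ^ a) ^ t ∈ Fr p e (JD P μ ((d - 1) / t)) ^ t := Ideal.pow_mem_pow h1 t
    have h4 : Fr p e (JD P μ ((d - 1) / t)) ^ t = Fr p e (JD P μ ((d - 1) / t) ^ t) :=
      (Ideal.map_pow _ _ _).symm
    rw [h4] at h3
    have h5 : F ^ p ^ e * F ^ t = F ^ (q + t - a * t) * (F ^ a) ^ t := by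
      rw [← pow_mul, ← pow_add, ← pow_add]
      congr 1
      have : p ^ e = q := rfl
      omega
    rw [h5]
    exact Ideal.mul_mem_left _ _ h3
  have hFt : F ^ t ≠ 0 := pow_ne_zero _ h0
  obtain ⟨b, hb⟩ := ne_zero_iff.1 hFt
  have hFth := hF.pow t
  have hbdeg : b.degree = d * t := deg_of_support hFth (mem_support_iff.2 hb)
  have hbq : ∀ i, b i < p ^ e := by
    intro i
    have h3 : b i ≤ b.degree := by
      rw [Finsupp.degree_eq_sum]
      exact Finset.single_le_sum (f := fun i => b i) (fun _ _ => Nat.zero_le _) (Finset.mem_univ i)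
    have h4 : d * t = t * d := mul_comm _ _
    omega
  have h3 := rt_mem_of_Fr p e hbq h2
  rw [rt_pow_mul p e hbq] at h3
  have h4 : ∃ γ : K, γ ≠ 0 ∧ rt p e b (F ^ t) = C γ := by
    have h5 := rt_spec p e b (F ^ t) 0
    rw [smul_zero, zero_add] at h5
    have hne0 : coeff 0 (rt p e b (F ^ t)) ≠ 0 := by
      intro h6
      rw [h6, zero_pow (q_pos p e).ne'] at h5
      exact hb h5.symm
    refine ⟨coeff 0 (rt p e b (F ^ t)), hne0, ?_⟩
    rcases rt_form p e hFth (a := b) with h | ⟨n, hdeg, hn⟩
    · exfalso; apply hne0; rw [h, coeff_zero]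
    · have hn0 : n = 0 := by
        have h6 : p ^ e * n = 0 := by omega
        exact (Nat.mul_eq_zero.1 h6).resolve_left (q_pos p e).ne'
      rw [hn0] at hn
      exact (totalDegree_eq_zero_iff_eq_C.1 (Nat.le_zero.1 hn.totalDegree_le))
  obtain ⟨γ, hγ, hγ'⟩ := h4
  rw [hγ'] at h3
  have h5 : F = C γ⁻¹ * (F * C γ) := by
    rw [mul_left_comm, ← C_mul, inv_mul_cancel₀ hγ, C_1, mul_one]
  rw [h5]
  exact Ideal.mul_mem_left _ _ h3

end Pool.Agent.Helper77.SP1
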