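import Mathlib
import Pool.Agent.Helper77.SP1.CoreB
import Pool.Agent.Helper50.N2.Char0

/-!
# Transfer of the containments to arbitrary fields
-/

set_option autoImplicit false

open MvPolynomial

namespace Pool.Agent.Helper77.SP1

open Pool.Agent.Helper50.Dem Pool.Agent.Helper50.N2

universe u

section transfer

variable {σ : Type} [DecidableEq σ] [Fintype σ] {ι : Type*} [Fintype ι]

open Pointwise in
/-- **transfer of non-membership** -/
theorem transferG {A K L : Type*} [CommRing A] [Field K] [Field L] (κ : A →+* K)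
    (hκ : Function.Injective κ) (θ : A →+* L) (P : ι → σ → A) (m : ι → ℕ) {s t d D : ℕ}
    (f : MvPolynomial σ A) (G : ∀ k, Matrix (Ex σ k) (Rw σ m) A)
    (hG : ∀ k ≤ d, TM P m k * G k * TM P m k = TM P m k) (x : Ex σ d → A)
    (hx1 : θ (chi x f) ≠ 0)
    (hx : ∀ u ∈ idealOfVars σ K ^ s * JD (fun i s => κ (P i s)) m D ^ t,
      chi (fun c => κ (x c)) u = 0) :
    map θ f ∉ idealOfVars σ L ^ s * JD (fun i s => θ (P i s)) m D ^ t := by
  classical
  intro hmem
  apply hx1
  rw [← chi_map]
  set I := idealOfVars σ L with hI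
  set J := JD (fun i s => θ (P i s)) m D with hJ
  set χ := chi (fun c => θ (x c)) with hχ
  -- spanning sets
  set Mon : Set (MvPolynomial σ L) := {u | ∃ w : σ →₀ ℕ, s ≤ w.degree ∧ u = monomial w 1} with hMon
  set Fr : Set (MvPolynomial σ L) :=
    {u | (∃ n ≤ D, u.IsHomogeneous n) ∧ ∀ i, u ∈ Vi (fun s => θ (P i s)) (m i)} with hFr
  set Bs : Set (MvPolynomial σ L) :=
    {u | ∃ k ≤ d, k ≤ D ∧ ∃ c : Ex σ k, u = map θ (bb P m (G k) c)} with hBs
  have hJt : J ^ t = Ideal.span (Fr ^ t) := by
    have h1 := Ideal.prod_span (Finset.univ : Finset (Fin t)) (fun _ => Fr)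
    rw [Finset.prod_const, Finset.prod_const, Finset.card_univ, Fintype.card_fin] at h1
    exact h1
  have h3 : ∀ w ∈ I ^ s * J ^ t, w ∈ Submodule.span L (Mon * Fr ^ t) := by
    intro w hw
    rw [hJt] at hw
    have key : ∀ b ∈ Ideal.span (Fr ^ t), ∀ a ∈ I ^ s, a * b ∈ Submodule.span L (Mon * Fr ^ t) := by
      intro b hb
      refine Submodule.span_induction
        (p := fun b _ => ∀ a ∈ I ^ s, a * b ∈ Submodule.span L (Mon * Fr ^ t)) ?_ ?_ ?_ ?_ hb
      · intro b hb a ha
        have h2 := (mem_pow_idealOfVars_iff s a).1 ha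
        rw [a.as_sum, Finset.sum_mul]
        apply Submodule.sum_mem
        intro v hv
        have h4 : (monomial v (coeff v a) : MvPolynomial σ L) * b
            = coeff v a • (monomial v 1 * b) := by
          rw [← smul_mul_assoc, smul_monomial, smul_eq_mul, mul_one]
        rw [h4]
        exact Submodule.smul_mem _ _ (Submodule.subset_span (Set.mul_mem_mul ⟨v, h2 v hv, rfl⟩ hb))
      · intro a _
        rw [mul_zero]; exact Submodule.zero_mem _
      · intro b c _ _ hb hc a ha
        rw [mul_add]; exact Submodule.add_mem _ (hb a ha) (hc a ha)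
      · intro r b _ hb a ha
        rw [smul_eq_mul, ← mul_assoc]
        exact hb _ (Ideal.mul_mem_right _ _ ha)
    exact Submodule.mul_induction_on hw (fun a ha b hb => key b hb a ha)
      (fun _ _ hx hy => Submodule.add_mem _ hx hy)
  have h4 : Submodule.span L (Mon * Fr ^ t) ≤ LinearMap.ker χ := by
    rw [Submodule.span_le]
    rintro _ ⟨_, ⟨w, hw, rfl⟩, v, hv, rfl⟩
    rw [SetLike.mem_coe, LinearMap.mem_ker]
    beta_reduce
    obtain ⟨u, hu, rfl⟩ := Set.mem_pow_iff_prod.1 hv
    choose k hkD hk using fun i => (hu i).1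
    have hform : (monomial w (1 : L) * ∏ i, u i).IsHomogeneous (w.degree + ∑ i, k i) :=
      (isHomogeneous_monomial _ rfl).mul (IsHomogeneous.prod _ _ _ fun i _ => hk i)
    by_cases hdeg : w.degree + ∑ i, k i = d
    · have hB : ∀ i, u i ∈ Submodule.span L Bs := by
        intro i
        have hki : k i ≤ d := by
          have := Finset.single_le_sum (f := k) (fun _ _ => Nat.zero_le _) (Finset.mem_univ i)
          omega
        rw [form_eq_sum_bb ((G (k i)).map θ) (hk i) (hu i).2]
        apply Submodule.sum_mem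
        intro c _
        apply Submodule.smul_mem
        exact Submodule.subset_span ⟨k i, hki, hkD i, c, (bb_map θ P m (G (k i)) c).symm⟩
      have h5 : monomial w (1 : L) * ∏ i, u i ∈ Submodule.span L ({monomial w 1} * Bs ^ t) := by
        rw [← Submodule.span_mul_span, ← Submodule.span_pow]
        exact Submodule.mul_mem_mul (Submodule.mem_span_singleton_self _)
          (prod_mem_pow _ t u hB)
      have h6 : Submodule.span L ({monomial w 1} * Bs ^ t) ≤ LinearMap.ker χ := by
        rw [Submodule.span_le]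
        rintro _ ⟨_, hw', v', hv', rfl⟩
        rw [Set.mem_singleton_iff] at hw'
        subst hw'
        rw [SetLike.mem_coe, LinearMap.mem_ker]
        beta_reduce
        obtain ⟨u', hu', rfl⟩ := Set.mem_pow_iff_prod.1 hv'
        choose k' hk' hkD' c' hc' using hu'
        have h7 : monomial w (1 : L) * ∏ i, u' i
            = map θ (monomial w 1 * ∏ i, bb P m (G (k' i)) (c' i)) := by
          rw [map_mul, map_monomial, θ.map_one, map_prod]
          congr 1
          apply Finset.prod_congr rfl
          intro i _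
          exact hc' i
        rw [h7, hχ, chi_map]
        have h8 : chi x (monomial w 1 * ∏ i, bb P m (G (k' i)) (c' i)) = 0 := by
          apply hκ
          rw [← chi_map, map_zero]
          apply hx
          rw [map_mul, map_monomial, κ.map_one, map_prod]
          apply Ideal.mul_mem_mul
          · exact idealOfVars_pow_of_form hw (isHomogeneous_monomial _ rfl)
          · have h9 : ∀ i : Fin t, map κ (bb P m (G (k' i)) (c' i))
                ∈ JD (fun i s => κ (P i s)) m D := by
              intro i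
              refine mem_JD (hkD' i) ((bb_isHomogeneous _ _ _ _).map κ) fun j => ?_
              exact map_mem_Vi κ (bb_vanish (hG _ (hk' i)) _ j)
            have h10 := Ideal.prod_mem_prod (s := (Finset.univ : Finset (Fin t)))
              (I := fun _ => JD (fun i s => κ (P i s)) m D)
              (x := fun i => map κ (bb P m (G (k' i)) (c' i))) (fun i _ => h9 i)
            rwa [Finset.prod_const, Finset.card_univ, Fintype.card_fin] at h10
        rw [h8, map_zero]
      exact h6 h5
    · exact chi_form _ hform hdeg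
  exact h4 (h3 _ hmem)

end transfer

section data

variable {σ : Type} [DecidableEq σ] [Fintype σ] {ι : Type*} [Fintype ι] {K : Type*} [Field K]

/-- linear algebra data certifying non-membership -/
lemma exists_dataG (P : ι → σ → K) (m : ι → ℕ) {s t d D : ℕ} {f : MvPolynomial σ K}
    (hf : f.IsHomogeneous d) (hnot : f ∉ idealOfVars σ K ^ s * JD P m D ^ t) :
    ∃ (G : ∀ k, Matrix (Ex σ k) (Rw σ m) K) (x : Ex σ d → K),
      (∀ k, TM P m k * G k * TM P m k = TM P m k) ∧ chi x f = 1 ∧
      ∀ u ∈ idealOfVars σ K ^ s * JD P m D ^ t, chi x u = 0 := by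
  classical
  have hG := fun k => exists_genInv (TM P m k)
  choose G hG using hG
  obtain ⟨χ, hχf, hχ⟩ := Submodule.exists_le_ker_of_notMem
    (p := (idealOfVars σ K ^ s * JD P m D ^ t).restrictScalars K) (v := f) hnot
  refine ⟨G, fun c => (χ f)⁻¹ * χ (monomial c.1 1), hG, ?_⟩
  have hHI : HI (idealOfVars σ K ^ s * JD P m D ^ t) := (HI_vars.pow s).mul ((HI_JD P m D).pow t)
  have key : ∀ u : MvPolynomial σ K, chi (fun c : Ex σ d => (χ f)⁻¹ * χ (monomial c.1 1)) u
      = (χ f)⁻¹ * χ (homogeneousComponent d u) := by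
    intro u
    have h1 : homogeneousComponent d u = ∑ c : Ex σ d, coeff c.1 u • monomial c.1 (1 : K) := by
      ext v
      rw [coeff_homogeneousComponent, coeff_sum]
      simp only [coeff_smul, coeff_monomial, smul_eq_mul]
      split_ifs with hv
      · rw [Finset.sum_eq_single ⟨v, mem_Ex.2 hv⟩]
        · simp
        · intro b _ hb
          rw [if_neg, mul_zero]
          intro h2
          exact hb (Subtype.ext h2)
        · intro h2; exact absurd (Finset.mem_univ _) h2
      · symm
        apply Finset.sum_eq_zero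
        intro c _
        rw [if_neg, mul_zero]
        intro h2
        apply hv
        rw [← h2]
        exact mem_Ex.1 c.2
    rw [h1, chi_apply, map_sum, Finset.mul_sum]
    apply Finset.sum_congr rfl
    intro c _
    rw [map_smul, smul_eq_mul]
    ring
  constructor
  · rw [key, homogeneousComponent_eq_self hf]
    exact inv_mul_cancel₀ hχf
  · intro u hu
    rw [key]
    have h1 : homogeneousComponent d u ∈ (idealOfVars σ K ^ s * JD P m D ^ t).restrictScalars K :=
      hHI u hu d
    rw [LinearMap.mem_ker.1 (hχ h1), mul_zero]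

end data

section all

/-- the containment holds over all algebraically closed fields of positive characteristic -/
def Closed (N : ℕ) (ι : Type u) (m α : ι → ℕ) (s t d D : ℕ) : Prop :=
  ∀ (L : Type u) [Field L] [IsAlgClosed L] (p : ℕ) [Fact p.Prime] [CharP L p]
    (P : ι → Fin (N + 1) → L), (∀ z, P z ≠ 0) → (∀ z z', z ≠ z' → ∀ c : L, P z' ≠ c • P z) →
    ∀ f : MvPolynomial (Fin (N + 1)) L, f.IsHomogeneous d → (∀ z, f ∈ Vi (P z) (α z)) →
      f ∈ idealOfVars (Fin (N + 1)) L ^ s * JD P m D ^ t

/-- nonproportional vectors have a nonzero minor -/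
lemma exists_minor {K : Type*} [Field K] {N : ℕ} {v w : Fin (N + 1) → K} (hv : v ≠ 0)
    (h : ∀ c : K, w ≠ c • v) : ∃ i j, v i * w j - v j * w i ≠ 0 := by
  obtain ⟨i, hi⟩ : ∃ i, v i ≠ 0 := by
    by_contra hcon
    push Not at hcon
    exact hv (funext hcon)
  by_contra hcon
  push Not at hcon
  apply h (w i / v i)
  funext j
  have h1 := hcon i j
  rw [Pi.smul_apply, smul_eq_mul, div_mul_eq_mul_div, eq_div_iff hi]
  linear_combination h1

/-- positive characteristic -/
theorem all_charp {N : ℕ} {ι : Type u} [Fintype ι] {m α : ι → ℕ} {s t d D : ℕ}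
    (hcl : Closed N ι m α s t d D) {K : Type u} [Field K] (p : ℕ) [Fact p.Prime] [CharP K p]
    {P : ι → Fin (N + 1) → K} (hP : ∀ z, P z ≠ 0)
    (hne : ∀ z z', z ≠ z' → ∀ c : K, P z' ≠ c • P z) {f : MvPolynomial (Fin (N + 1)) K}
    (hf : f.IsHomogeneous d) (hV : ∀ z, f ∈ Vi (P z) (α z)) :
    f ∈ idealOfVars (Fin (N + 1)) K ^ s * JD P m D ^ t := by
  classical
  by_contra hnot
  obtain ⟨G, x, hG, hx1, hx⟩ := exists_dataG P m hf hnot
  have hinj := (algebraMap K (AlgebraicClosure K)).injective
  have hLp : CharP (AlgebraicClosure K) p := charP_of_injective_algebraMap hinj p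
  refine transferG (RingHom.id K) Function.injective_id (algebraMap K (AlgebraicClosure K))
    P m f G (fun k _ => hG k) x ?_ hx ?_
  · rw [hx1, map_one]
    exact one_ne_zero
  · refine hcl (AlgebraicClosure K) p _ ?_ ?_ _ (hf.map _) fun i => map_mem_Vi _ (hV i)
    · intro z h1
      apply hP z
      funext s
      exact (map_eq_zero_iff _ hinj).1 (congrFun h1 s)
    · intro z z' hz c hc
      obtain ⟨i, j, hij⟩ := exists_minor (hP z) (hne z z' hz)
      apply hij
      apply hinj
      have h1 := congrFun hc i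
      have h2 := congrFun hc j
      simp only [Pi.smul_apply, smul_eq_mul] at h1 h2
      rw [map_sub, map_mul, map_mul, h1, h2, map_zero]
      ring

/-- characteristic zero -/
theorem all_char0 {N : ℕ} {ι : Type u} [Fintype ι] {m α : ι → ℕ} {s t d D : ℕ}
    (hcl : Closed N ι m α s t d D) {K : Type u} [Field K] [CharZero K]
    {P : ι → Fin (N + 1) → K} (hP : ∀ z, P z ≠ 0)
    (hne : ∀ z z', z ≠ z' → ∀ c : K, P z' ≠ c • P z) {f : MvPolynomial (Fin (N + 1)) K}
    (hf : f.IsHomogeneous d) (hV : ∀ z, f ∈ Vi (P z) (α z)) :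
    f ∈ idealOfVars (Fin (N + 1)) K ^ s * JD P m D ^ t := by
  classical
  by_contra hnot
  obtain ⟨G, x, hG, hx1, hx⟩ := exists_dataG P m hf hnot
  have hmin : ∀ z z', ∃ ij : Fin (N + 1) × Fin (N + 1),
      z ≠ z' → P z ij.1 * P z' ij.2 - P z ij.2 * P z' ij.1 ≠ 0 := by
    intro z z'
    by_cases hz : z = z'
    · exact ⟨(0, 0), fun h => absurd hz h⟩
    · obtain ⟨i, j, hij⟩ := exists_minor (hP z) (hne z z' hz)
      exact ⟨(i, j), fun _ => hij⟩
  choose ij hij using hmin
  set mn : ι → ι → K := fun z z' =>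
    P z (ij z z').1 * P z' (ij z z').2 - P z (ij z z').2 * P z' (ij z z').1 with hmn
  set S : Finset K := ((Finset.univ : Finset (ι × Fin (N + 1))).image (fun x => P x.1 x.2)) ∪
    ((Finset.univ : Finset (ι × Fin (N + 1))).image (fun x => (P x.1 x.2)⁻¹)) ∪
    (f.support.image (fun u => coeff u f)) ∪
    ((Finset.range (d + 1)).biUnion (fun k =>
      (Finset.univ : Finset (Ex (Fin (N + 1)) k × Rw (Fin (N + 1)) m)).image
        (fun y => G k y.1 y.2))) ∪
    ((Finset.univ : Finset (Ex (Fin (N + 1)) d)).image x) ∪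
    ((Finset.univ : Finset (ι × ι)).image (fun y => (mn y.1 y.2)⁻¹)) with hS
  set A := Algebra.adjoin ℤ (S : Set K) with hA
  have hsub : ∀ x ∈ S, x ∈ A := fun x hx => Algebra.subset_adjoin hx
  have hPA : ∀ i s, P i s ∈ A := fun i s => hsub _ (by
    rw [hS]; simp only [Finset.mem_union, Finset.mem_image]
    left; left; left; left; left; exact ⟨(i, s), Finset.mem_univ _, rfl⟩)
  have hPA' : ∀ i s, (P i s)⁻¹ ∈ A := fun i s => hsub _ (by
    rw [hS]; simp only [Finset.mem_union, Finset.mem_image]
    left; left; left; left; right; exact ⟨(i, s), Finset.mem_univ _, rfl⟩)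
  have hfA : ∀ u ∈ f.support, coeff u f ∈ A := fun u hu => hsub _ (by
    rw [hS]; simp only [Finset.mem_union, Finset.mem_image]
    left; left; left; right; exact ⟨u, hu, rfl⟩)
  have hGA : ∀ k ≤ d, ∀ a b, G k a b ∈ A := fun k hk a b => hsub _ (by
    rw [hS]; simp only [Finset.mem_union, Finset.mem_image, Finset.mem_biUnion]
    left; left; right; exact ⟨k, Finset.mem_range.2 (by omega), (a, b), Finset.mem_univ _, rfl⟩)
  have hxA : ∀ c, x c ∈ A := fun c => hsub _ (by
    rw [hS]; simp only [Finset.mem_union, Finset.mem_image]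
    left; right; exact ⟨c, Finset.mem_univ _, rfl⟩)
  have hmA : ∀ z z', (mn z z')⁻¹ ∈ A := fun z z' => hsub _ (by
    rw [hS]; simp only [Finset.mem_union, Finset.mem_image]
    right; exact ⟨(z, z'), Finset.mem_univ _, rfl⟩)
  have hmA' : ∀ z z', mn z z' ∈ A := fun z z' =>
    sub_mem (mul_mem (hPA _ _) (hPA _ _)) (mul_mem (hPA _ _) (hPA _ _))
  have hAft : Algebra.FiniteType ℤ A := by
    rw [← Subalgebra.fg_iff_finiteType]
    exact ⟨S, rfl⟩
  obtain ⟨𝔫, h𝔫⟩ := Ideal.exists_maximal A
  let F := A ⧸ 𝔫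
  let _ : Field F := Ideal.Quotient.field 𝔫
  have hFft0 := Algebra.FiniteType.of_surjective (Ideal.Quotient.mkₐ ℤ 𝔫)
    Ideal.Quotient.mk_surjective
  have hFft : @Algebra.FiniteType ℤ F _ _ (Ring.toIntAlgebra F) := by
    have h1 : (Ring.toIntAlgebra F) = (Ideal.Quotient.algebra ℤ : Algebra ℤ F) :=
      Subsingleton.elim _ _
    rw [h1]
    exact hFft0
  obtain ⟨p, hp, hchar⟩ := @exists_charP F _ hFft
  let L := AlgebraicClosure F
  have hLp : CharP L p := charP_of_injective_algebraMap (algebraMap F L).injective p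
  set θ : A →+* L := (algebraMap F L).comp (Ideal.Quotient.mk 𝔫) with hθ
  have hval : Function.Injective (algebraMap A K) := Subtype.val_injective
  have hunit : ∀ (x : K) (hx : x ∈ A) (_ : x⁻¹ ∈ A), x ≠ 0 → θ ⟨x, hx⟩ ≠ 0 := by
    intro x hx hx' hx0 h1
    have h2 : (⟨x, hx⟩ : A) * ⟨x⁻¹, hx'⟩ = 1 := Subtype.ext (mul_inv_cancel₀ hx0)
    have h3 := congrArg θ h2
    rw [map_mul, h1, zero_mul, map_one] at h3
    exact zero_ne_one h3
  -- the data over `A`
  set PA : ι → Fin (N + 1) → A := fun i s => ⟨P i s, hPA i s⟩ with hPAdef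
  set fA : MvPolynomial (Fin (N + 1)) A :=
    ∑ u ∈ f.support.attach, monomial u.1 ⟨coeff u.1 f, hfA u.1 u.2⟩ with hfAdef
  have hfAmap : map (algebraMap A K) fA = f := by
    rw [hfAdef, map_sum]
    conv_rhs => rw [f.as_sum]
    rw [← Finset.sum_attach f.support (fun v => monomial v (coeff v f))]
    apply Finset.sum_congr rfl
    intro u _
    rw [map_monomial]
    rfl
  have hfAh : fA.IsHomogeneous d := by
    apply IsHomogeneous.of_map (f := algebraMap A K) hval
    rw [hfAmap]; exact hf
  have hfAV : ∀ i, fA ∈ Vi (PA i) (α i) := by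
    intro i
    apply mem_Vi_of_map (algebraMap A K) hval
    rw [hfAmap]
    exact hV i
  set GA : ∀ k, Matrix (Ex (Fin (N + 1)) k) (Rw (Fin (N + 1)) m) A :=
    fun k => if hk : k ≤ d then fun a b => ⟨G k a b, hGA k hk a b⟩ else 0 with hGAdef
  have hGAm : ∀ k ≤ d, (GA k).map (algebraMap A K) = G k := by
    intro k hk
    ext a b
    rw [Matrix.map_apply, hGAdef]
    beta_reduce
    rw [dif_pos hk]
    rfl
  have hGA1 : ∀ k ≤ d, TM PA m k * GA k * TM PA m k = TM PA m k := by
    intro k hk
    apply Matrix.map_injective hval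
    beta_reduce
    rw [Matrix.map_mul, Matrix.map_mul, hGAm k hk, TM_map]
    exact hG k
  refine transferG (s := s) (t := t) (D := D) (algebraMap A K) hval θ PA m fA GA hGA1
    (fun c => ⟨x c, hxA c⟩) ?_ ?_ ?_
  · have h1 : chi (fun c => (⟨x c, hxA c⟩ : A)) fA = 1 := by
      apply hval
      rw [← chi_map, hfAmap, map_one]
      exact hx1
    rw [h1, map_one]
    exact one_ne_zero
  · exact hx
  · have : Fact p.Prime := ⟨hp⟩
    refine hcl L p (fun i s => θ (PA i s)) ?_ ?_ _ (hfAh.map θ) fun i => map_mem_Vi θ (hfAV i)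
    · intro i h1
      obtain ⟨s, hs⟩ : ∃ s, P i s ≠ 0 := by
        by_contra h2
        push Not at h2
        exact hP i (funext h2)
      exact hunit (P i s) (hPA i s) (hPA' i s) hs (congrFun h1 s)
    · intro z z' hz c hc
      apply hunit (mn z z') (hmA' z z') (hmA z z') (hij z z' hz)
      have h0 : (⟨mn z z', hmA' z z'⟩ : A) = PA z (ij z z').1 * PA z' (ij z z').2
          - PA z (ij z z').2 * PA z' (ij z z').1 := rfl
      have h1 := congrFun hc (ij z z').1
      have h2 := congrFun hc (ij z z').2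
      simp only [Pi.smul_apply, smul_eq_mul] at h1 h2
      rw [h0, map_sub, map_mul, map_mul, h1, h2]
      ring

/-- every field -/
theorem all_fields {N : ℕ} {ι : Type u} [Fintype ι] {m α : ι → ℕ} {s t d D : ℕ}
    (hcl : Closed N ι m α s t d D) {K : Type u} [Field K]
    {P : ι → Fin (N + 1) → K} (hP : ∀ z, P z ≠ 0)
    (hne : ∀ z z', z ≠ z' → ∀ c : K, P z' ≠ c • P z) {f : MvPolynomial (Fin (N + 1)) K}
    (hf : f.IsHomogeneous d) (hV : ∀ z, f ∈ Vi (P z) (α z)) :
    f ∈ idealOfVars (Fin (N + 1)) K ^ s * JD P m D ^ t := by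
  have hchar := ringChar.charP K
  rcases CharP.char_is_prime_or_zero K (ringChar K) with hp | hp
  · have : Fact (ringChar K).Prime := ⟨hp⟩
    exact all_charp hcl (ringChar K) hP hne hf hV
  · have : CharZero K := by
      rw [hp] at hchar
      exact CharP.charP_to_charZero K
    exact all_char0 hcl hP hne hf hV

end all

end Pool.Agent.Helper77.SP1
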