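import Mathlib
import Pool.Agent.Helper77.SP1.ClosedA
import Pool.Agent.Helper77.SP1.ClosedB
import Pool.Agent.Helper77.SP1.Trans

/-!
# The two containments for ideals of fat points over every field
-/

set_option autoImplicit false

open MvPolynomial

namespace Pool.Agent.Helper77.SP1

open Pool.Agent.Helper50.Dem Pool.Agent.Helper50.N2

universe u

section closed

variable {N : ℕ} {ι : Type u} [Fintype ι] [Nonempty ι]

theorem closed_first (hN : 1 ≤ N) (μ : ι → ℕ) (d : ℕ) :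
    Closed N ι μ (fun z => μ z + (N - 1)) (min (N - 1) 2) 1 d d := by
  intro L _ _ p _ _ P hP hne f hf hV
  rw [pow_one]
  exact form_mem_mul_JD hP (closedA p hN hP hne hf hV) hf

theorem closed_all (hN : 2 ≤ N) (μ : ι → ℕ) {t : ℕ} (ht : 0 < t) (d : ℕ) :
    Closed N ι μ (fun z => t * (μ z + (N - 1))) 0 t d ((d - 1) / t) := by
  intro L _ _ p _ _ P hP hne f hf hV
  rw [pow_zero, Ideal.one_eq_top, Ideal.top_mul]
  exact closedB p hN hP hne ht hf hV

end closed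

section degree

variable {σ : Type} {K : Type*} [CommRing K] {ι : Type*}

open Pointwise in
/-- a form of degree `d` in the `t`-th power of the ideal generated by forms of degree `≤ D` -/
lemma form_mem_pow {P : ι → σ → K} {μ : ι → ℕ} {D t d k : ℕ} {f : MvPolynomial σ K}
    (hf : f ∈ JD P μ D ^ t) (hfd : f.IsHomogeneous d) (h : t * D + k ≤ d) :
    f ∈ idealOfVars σ K ^ k * JJ P μ ^ t := by
  set Fr : Set (MvPolynomial σ K) :=
    {u | (∃ n ≤ D, u.IsHomogeneous n) ∧ ∀ i, u ∈ Vi (P i) (μ i)} with hFr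
  have hJt : JD P μ D ^ t = Ideal.span (Fr ^ t) := by
    have h1 := Ideal.prod_span (Finset.univ : Finset (Fin t)) (fun _ => Fr)
    rw [Finset.prod_const, Finset.prod_const, Finset.card_univ, Fintype.card_fin] at h1
    exact h1
  have h2 : f ∈ idealOfVars σ K ^ k * Ideal.span (Fr ^ t) := by
    rw [hJt] at hf
    refine mem_mul_span_of_form (D := t * D) (fun s hs => ?_) h hf hfd
    obtain ⟨u, hu, rfl⟩ := Set.mem_pow_iff_prod.1 hs
    choose n hnD hn using fun i => (hu i).1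
    refine ⟨∑ i, n i, ?_, IsHomogeneous.prod _ _ _ fun i _ => hn i⟩
    calc ∑ i, n i ≤ ∑ _i : Fin t, D := Finset.sum_le_sum fun i _ => hnD i
      _ = t * D := by rw [Finset.sum_const, Finset.card_univ, Fintype.card_fin, smul_eq_mul]
  rw [← hJt] at h2
  exact Ideal.mul_mono le_rfl (Ideal.pow_right_mono (JD_le_JJ P μ D) t) h2

end degree

section fat

variable {K : Type u} [Field K] {N : ℕ}

lemma HI_fat' (Z : Finset (Fin (N + 1) → K)) (μ : (Fin (N + 1) → K) → ℕ) : HI (fat Z μ) := by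
  intro u hu n
  unfold fat at *
  simp only [Ideal.mem_iInf] at *
  exact fun p hp => (HI_pt p).pow (μ p) u (hu p hp) n

lemma JJ_le_fat {Z : Finset (Fin (N + 1) → K)} (h0 : ∀ p ∈ Z, p ≠ 0)
    (μ : (Fin (N + 1) → K) → ℕ) :
    JJ (ι := {p // p ∈ Z}) (fun p => p.1) (fun p => μ p.1) ≤ fat Z μ := by
  rw [JJ, Ideal.span_le]
  rintro u ⟨⟨k, hk⟩, hu⟩
  exact (mem_fat h0 μ hk).2 fun p hp => hu ⟨p, hp⟩

/-- **the first power** -/
theorem first (hN : 1 ≤ N) (Z : Finset (Fin (N + 1) → K)) (hZ : Z.Nonempty)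
    (h0 : ∀ p ∈ Z, p ≠ 0) (hp : ∀ p ∈ Z, ∀ q ∈ Z, ∀ c : K, q = c • p → q = p)
    (μ : (Fin (N + 1) → K) → ℕ) :
    fat Z (fun p => μ p + (N - 1)) ≤
      idealOfVars (Fin (N + 1)) K ^ (min (N - 1) 2) * fat Z μ := by
  intro f hf
  rw [← sum_homogeneousComponent f]
  apply Ideal.sum_mem
  intro n _
  have hfn := HI_fat' Z (fun p => μ p + (N - 1)) f hf n
  have hform := homogeneousComponent_isHomogeneous n f
  have hV := (mem_fat h0 (fun p => μ p + (N - 1)) hform).1 hfn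
  have hne : Nonempty {p // p ∈ Z} := hZ.to_subtype
  have h1 := all_fields (closed_first (ι := {p // p ∈ Z}) hN (fun p => μ p.1) n)
    (P := fun p => p.1) (fun p => h0 p.1 p.2)
    (fun p q hpq c hc => hpq (Subtype.ext (hp p.1 p.2 q.1 q.2 c hc)).symm) hform
    (fun p => hV p.1 p.2)
  rw [pow_one] at h1
  exact Ideal.mul_mono le_rfl ((JD_le_JJ _ _ _).trans (JJ_le_fat h0 μ)) h1

/-- **all powers**, the statement on forms -/
theorem all_forms (hN : 2 ≤ N) (Z : Finset (Fin (N + 1) → K)) (hZ : Z.Nonempty)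
    (h0 : ∀ p ∈ Z, p ≠ 0) (hp : ∀ p ∈ Z, ∀ q ∈ Z, ∀ c : K, q = c • p → q = p)
    (μ : (Fin (N + 1) → K) → ℕ) {t : ℕ} (ht : 0 < t) {d : ℕ}
    {f : MvPolynomial (Fin (N + 1)) K} (hfd : f.IsHomogeneous d)
    (hf : f ∈ fat Z (fun p => t * (μ p + (N - 1)))) :
    f ∈ JD (ι := {p // p ∈ Z}) (fun p => p.1) (fun p => μ p.1) ((d - 1) / t) ^ t := by
  have hV := (mem_fat h0 (fun p => t * (μ p + (N - 1))) hfd).1 hf
  have hne : Nonempty {p // p ∈ Z} := hZ.to_subtype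
  have h1 := all_fields (closed_all (ι := {p // p ∈ Z}) hN (fun p => μ p.1) ht d)
    (P := fun p => p.1) (fun p => h0 p.1 p.2)
    (fun p q hpq c hc => hpq (Subtype.ext (hp p.1 p.2 q.1 q.2 c hc)).symm) hfd
    (fun p => hV p.1 p.2)
  rwa [pow_zero, Ideal.one_eq_top, Ideal.top_mul] at h1

/-- a nonzero form in the ideal has positive degree -/
lemma degree_pos (hN : 2 ≤ N) {Z : Finset (Fin (N + 1) → K)} (hZ : Z.Nonempty)
    (h0 : ∀ p ∈ Z, p ≠ 0) {μ : (Fin (N + 1) → K) → ℕ} {t : ℕ} (ht : 0 < t) {d : ℕ}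
    {f : MvPolynomial (Fin (N + 1)) K} (hfd : f.IsHomogeneous d)
    (hf : f ∈ fat Z (fun p => t * (μ p + (N - 1)))) (hf0 : f ≠ 0) : 0 < d := by
  obtain ⟨p, hp⟩ := hZ
  have hV := (mem_fat h0 (fun p => t * (μ p + (N - 1))) hfd).1 hf p hp
  have h1 := order_le_degree hfd hf0 p hV
  have h2 : t * 1 ≤ t * (μ p + (N - 1)) := Nat.mul_le_mul_left _ (by omega)
  omega

/-- **all powers**: forms lie in the `t`-th power of the ideal generated in degrees `< d / t` -/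
theorem all_small (hN : 2 ≤ N) (Z : Finset (Fin (N + 1) → K)) (hZ : Z.Nonempty)
    (h0 : ∀ p ∈ Z, p ≠ 0) (hp : ∀ p ∈ Z, ∀ q ∈ Z, ∀ c : K, q = c • p → q = p)
    (μ : (Fin (N + 1) → K) → ℕ) {t : ℕ} (ht : 0 < t) {d : ℕ}
    {f : MvPolynomial (Fin (N + 1)) K} (hfd : f.IsHomogeneous d)
    (hf : f ∈ fat Z (fun p => t * (μ p + (N - 1)))) :
    f ∈ Ideal.span {g | g ∈ fat Z μ ∧ ∃ k, t * k < d ∧ g.IsHomogeneous k} ^ t := by
  by_cases hf0 : f = 0
  · rw [hf0]; exact Ideal.zero_mem _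
  have hd := degree_pos hN hZ h0 ht hfd hf hf0
  refine Ideal.pow_right_mono ?_ t (all_forms hN Z hZ h0 hp μ ht hfd hf)
  unfold JD
  apply Ideal.span_mono
  rintro g ⟨⟨n, hn, hg⟩, hgV⟩
  refine ⟨(mem_fat h0 μ hg).2 fun p hp' => hgV ⟨p, hp'⟩, n, ?_, hg⟩
  have h1 := (Nat.le_div_iff_mul_le ht).1 hn
  rw [mul_comm] at h1
  omega

/-- **all powers**: forms whose degree is divisible by `t` -/
theorem all_dvd (hN : 2 ≤ N) (Z : Finset (Fin (N + 1) → K)) (hZ : Z.Nonempty)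
    (h0 : ∀ p ∈ Z, p ≠ 0) (hp : ∀ p ∈ Z, ∀ q ∈ Z, ∀ c : K, q = c • p → q = p)
    (μ : (Fin (N + 1) → K) → ℕ) {t : ℕ} (ht : 0 < t) {d : ℕ}
    {f : MvPolynomial (Fin (N + 1)) K} (hfd : f.IsHomogeneous d) (hdt : t ∣ d)
    (hf : f ∈ fat Z (fun p => t * (μ p + (N - 1)))) :
    f ∈ idealOfVars (Fin (N + 1)) K ^ t * fat Z μ ^ t := by
  by_cases hf0 : f = 0
  · rw [hf0]; exact Ideal.zero_mem _
  have hd := degree_pos hN hZ h0 ht hfd hf hf0
  obtain ⟨n, rfl⟩ := hdt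
  have hn : 0 < n := Nat.pos_of_mul_pos_left hd
  obtain ⟨m, rfl⟩ : ∃ m, n = m + 1 := ⟨n - 1, by omega⟩
  have h1 : (t * (m + 1) - 1) / t = m := by
    apply Nat.div_eq_of_lt_le
    · have : t * (m + 1) = m * t + t := by ring
      omega
    · have : t * (m + 1) = (m + 1) * t := by ring
      omega
  have h2 := all_forms hN Z hZ h0 hp μ ht hfd hf
  rw [h1] at h2
  have h3 := form_mem_pow (k := t) h2 hfd (by rw [Nat.mul_add, Nat.mul_one])
  exact Ideal.mul_mono le_rfl (Ideal.pow_right_mono (JJ_le_fat h0 μ) t) h3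

/-- **all powers**: the containment of ideals -/
theorem all_ideal (hN : 2 ≤ N) (Z : Finset (Fin (N + 1) → K)) (hZ : Z.Nonempty)
    (h0 : ∀ p ∈ Z, p ≠ 0) (hp : ∀ p ∈ Z, ∀ q ∈ Z, ∀ c : K, q = c • p → q = p)
    (μ : (Fin (N + 1) → K) → ℕ) {t : ℕ} (ht : 0 < t) :
    fat Z (fun p => t * (μ p + (N - 1))) ≤ idealOfVars (Fin (N + 1)) K * fat Z μ ^ t := by
  intro f hf
  rw [← sum_homogeneousComponent f]
  apply Ideal.sum_mem
  intro n _
  have hfn := HI_fat' Z (fun p => t * (μ p + (N - 1))) f hf n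
  have hform := homogeneousComponent_isHomogeneous n f
  by_cases hf0 : homogeneousComponent n f = 0
  · rw [hf0]; exact Ideal.zero_mem _
  have hd := degree_pos hN hZ h0 ht hform hfn hf0
  have h2 := all_forms hN Z hZ h0 hp μ ht hform hfn
  have h4 : t * ((n - 1) / t) ≤ n - 1 := Nat.mul_div_le _ _
  have h3 := form_mem_pow (k := 1) h2 hform (by omega)
  rw [pow_one] at h3
  exact Ideal.mul_mono le_rfl (Ideal.pow_right_mono (JJ_le_fat h0 μ) t) h3

end fat

end Pool.Agent.Helper77.SP1
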